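import Pool.Agent.H81.Lv.Tree

/-! # generated: zones of the data A, vertex 1 -/

set_option autoImplicit false
set_option maxRecDepth 100000

namespace Pool.H61.Rh

open Pool.H47.Kc Pool.H47.K3

def zA1_0 : ZT :=
  .nd 1 64 (.z ⟨.ofNat 937895, .negSucc 1624488, .negSucc 66464, .ofNat 442889, .ofNat 94267, .negSucc 16383, .ofNat 238, .ofNat 2951, .ofNat 16384, .ofNat 1172, .ofNat 139, .ofNat 159, .ofNat 5, .ofNat 449, false, 0,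
    .leaf ⟨5, 16, 1, 16, 755⟩ ⟨8, 3, 64, 4, 5, 1, 13, 4⟩,
    .leaf ⟨3, 4, 1, 4, 857⟩ ⟨8, 2, 64, 2, 13, 1, 5, 2⟩,
    .leaf ⟨3, 4, 1, 4, 422⟩ ⟨3, 1, 2, 1, 1, 1, 2, 1⟩⟩) (.z ⟨.ofNat 937895, .negSucc 1624488, .negSucc 66464, .ofNat 442889, .ofNat 98780, .negSucc 13106, .ofNat 104, .negSucc 6136, .ofNat 13107, .ofNat 1376, .ofNat 145, .ofNat 145, .ofNat 13, .ofNat 938, true, 0,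
    .leaf ⟨5, 16, 1, 16, 755⟩ ⟨4, 2, 12, 2, 1, 1, 4, 2⟩,
    .leaf ⟨3, 4, 1, 4, 857⟩ ⟨4, 3, 12, 4, 1, 1, 4, 4⟩,
    .leaf ⟨3, 4, 1, 4, 422⟩ ⟨2, 1, 3, 1, 1, 1, 1, 1⟩⟩)

def zA1_1 : ZT :=
  .z ⟨.ofNat 871430, .negSucc 1181599, .negSucc 52327, .ofNat 1181600, .ofNat 92068, .negSucc 4914, .ofNat 225, .ofNat 3160, .ofNat 4915, .ofNat 1292, .ofNat 141, .ofNat 159, .ofNat 7, .ofNat 739, false, 0,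
    .nd 1 32 (.leaf ⟨5, 16, 1, 16, 755⟩ ⟨5, 2, 4, 2, 1, 1, 4, 2⟩) (.nd 1 64 (.leaf ⟨5, 16, 1, 16, 755⟩ ⟨5, 3, 12, 4, 1, 1, 4, 4⟩) (.leaf ⟨5, 16, 1, 16, 755⟩ ⟨5, 9, 24, 256, 1, 29, 8, 9⟩)),
    .nd 1 64 (.leaf ⟨3, 4, 1, 4, 857⟩ ⟨4, 2, 4, 2, 1, 1, 4, 2⟩) (.leaf ⟨3, 4, 1, 4, 857⟩ ⟨3, 2, 6, 2, 1, 1, 2, 2⟩),
    .leaf ⟨3, 4, 1, 4, 422⟩ ⟨2, 2, 2, 2, 1, 1, 2, 2⟩⟩

def zA1_2 : ZT :=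
  .z ⟨.ofNat 819102, .ofNat 0, .ofNat 52328, .ofNat 1181600, .ofNat 92565, .negSucc 3922, .ofNat 180, .ofNat 2681, .ofNat 3923, .ofNat 1292, .ofNat 139, .ofNat 159, .ofNat 7, .ofNat 739, false, 0,
    .nd 1 64 (.leaf ⟨5, 16, 1, 16, 755⟩ ⟨4, 7, 4, 64, 1, 13, 4, 5⟩) (.leaf ⟨5, 16, 1, 16, 755⟩ ⟨5, 4, 24, 8, 1, 1, 8, 8⟩),
    .leaf ⟨3, 4, 1, 4, 857⟩ ⟨4, 9, 8, 256, 1, 43, 8, 6⟩,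
    .leaf ⟨3, 4, 1, 4, 422⟩ ⟨2, 2, 2, 2, 1, 1, 2, 2⟩⟩

def zA1_3 : ZT :=
  .nd 1 96 (.z ⟨.ofNat 871430, .ofNat 1181600, .ofNat 66465, .ofNat 442889, .ofNat 91738, .negSucc 2739, .ofNat 89, .ofNat 3488, .ofNat 2740, .ofNat 1293, .ofNat 133, .ofNat 160, .ofNat 12, .ofNat 741, false, 0,
    .leaf ⟨5, 16, 1, 16, 755⟩ ⟨7, 2, 48, 2, 7, 1, 7, 2⟩,
    .leaf ⟨3, 4, 1, 4, 857⟩ ⟨3, 1, 3, 1, 1, 1, 3, 1⟩,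
    .leaf ⟨3, 4, 1, 4, 422⟩ ⟨4, 1, 6, 1, 3, 1, 2, 1⟩⟩) (.z ⟨.ofNat 871430, .ofNat 1181600, .ofNat 66465, .ofNat 442889, .ofNat 90469, .ofNat 0, .ofNat 40, .ofNat 2260, .ofNat 0, .ofNat 1376, .ofNat 132, .ofNat 90, .ofNat 19, .ofNat 937, true, 0,
    .leaf ⟨5, 16, 1, 16, 755⟩ ⟨5, 7, 28, 64, 1, 13, 4, 5⟩,
    .leaf ⟨3, 4, 1, 4, 857⟩ ⟨4, 3, 14, 4, 1, 1, 2, 4⟩,
    .leaf ⟨3, 4, 1, 4, 422⟩ ⟨3, 1, 7, 1, 1, 1, 1, 1⟩⟩)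

def zA1_4 : ZT :=
  .nd 1 96 (.z ⟨.ofNat 937895, .ofNat 1624489, .negSucc 350259, .negSucc 279152, .ofNat 91738, .negSucc 2739, .ofNat 89, .ofNat 3488, .ofNat 2740, .ofNat 1293, .ofNat 133, .ofNat 160, .ofNat 12, .ofNat 741, false, 0,
    .leaf ⟨5, 16, 1, 16, 738⟩ ⟨4, 2, 6, 2, 1, 1, 6, 2⟩,
    .leaf ⟨3, 4, 1, 4, 858⟩ ⟨3, 1, 3, 1, 1, 1, 3, 1⟩,
    .leaf ⟨3, 4, 1, 4, 422⟩ ⟨4, 1, 6, 1, 3, 1, 2, 1⟩⟩) (.z ⟨.ofNat 937895, .ofNat 1624489, .negSucc 350259, .negSucc 279152, .ofNat 89095, .ofNat 0, .ofNat 50, .ofNat 3632, .ofNat 0, .ofNat 1376, .ofNat 131, .ofNat 124, .ofNat 19, .ofNat 937, true, 0,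
    .leaf ⟨5, 16, 1, 16, 738⟩ ⟨4, 2, 14, 2, 1, 1, 2, 2⟩,
    .leaf ⟨3, 4, 1, 4, 858⟩ ⟨3, 2, 7, 2, 1, 1, 1, 2⟩,
    .leaf ⟨3, 4, 1, 4, 422⟩ ⟨3, 1, 7, 1, 1, 1, 1, 1⟩⟩)

def zA1_5 : ZT :=
  .nd 1 96 (.z ⟨.ofNat 587635, .ofNat 1345336, .negSucc 997185, .negSucc 635953, .ofNat 93420, .negSucc 2184, .ofNat 122, .ofNat 3026, .ofNat 2185, .ofNat 1231, .ofNat 133, .ofNat 188, .ofNat 10, .ofNat 598, false, 0,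
    .leaf ⟨5, 16, 1, 16, 738⟩ ⟨9, 3, 192, 4, 39, 1, 5, 4⟩,
    .leaf ⟨3, 4, 1, 4, 858⟩ ⟨4, 3, 6, 4, 3, 1, 2, 4⟩,
    .leaf ⟨3, 4, 1, 4, 422⟩ ⟨4, 1, 6, 1, 3, 1, 2, 1⟩⟩) (.z ⟨.ofNat 587635, .ofNat 1345336, .negSucc 997185, .negSucc 635953, .ofNat 93693, .negSucc 3945, .ofNat 89, .ofNat 1540, .ofNat 3946, .ofNat 1292, .ofNat 132, .ofNat 234, .ofNat 13, .ofNat 738, false, 0,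
    .leaf ⟨5, 16, 1, 16, 738⟩ ⟨5, 4, 28, 8, 1, 1, 4, 8⟩,
    .leaf ⟨3, 4, 1, 4, 858⟩ ⟨4, 3, 14, 4, 1, 1, 2, 4⟩,
    .leaf ⟨3, 4, 1, 4, 422⟩ ⟨3, 1, 7, 1, 1, 1, 1, 1⟩⟩)

def zA1_6 : ZT :=
  .z ⟨.negSucc 409550, .ofNat 709382, .negSucc 1049513, .negSucc 545645, .ofNat 91436, .negSucc 1896, .ofNat 110, .ofNat 3756, .ofNat 1897, .ofNat 1293, .ofNat 133, .ofNat 235, .ofNat 14, .ofNat 740, false, 0,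
    .nd 1 64 (.leaf ⟨3, 4, 1, 4, 586⟩ ⟨3, 2, 2, 2, 1, 1, 2, 2⟩) (.leaf ⟨5, 16, 1, 16, 738⟩ ⟨4, 9, 12, 256, 1, 29, 4, 9⟩),
    .leaf ⟨3, 4, 1, 4, 858⟩ ⟨4, 9, 8, 256, 1, 43, 8, 6⟩,
    .leaf ⟨3, 4, 1, 4, 422⟩ ⟨2, 2, 2, 2, 1, 1, 2, 2⟩⟩

def zA1_7 : ZT :=
  .z ⟨.negSucc 1459064, .ofNat 163736, .negSucc 416724, .negSucc 163735, .ofNat 88220, .negSucc 784, .ofNat 68, .ofNat 4470, .ofNat 785, .ofNat 1376, .ofNat 133, .ofNat 160, .ofNat 19, .ofNat 939, true, 0,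
    .leaf ⟨5, 16, 1, 16, 738⟩ ⟨5, 7, 16, 64, 1, 13, 16, 5⟩,
    .leaf ⟨3, 4, 1, 4, 858⟩ ⟨4, 2, 8, 2, 1, 1, 8, 2⟩,
    .leaf ⟨3, 4, 1, 4, 422⟩ ⟨2, 1, 2, 1, 1, 1, 2, 1⟩⟩

def zA1_8 : ZT :=
  .z ⟨.negSucc 1875789, .ofNat 0, .ofNat 416725, .negSucc 163735, .ofNat 89074, .negSucc 1637, .ofNat 68, .ofNat 3616, .ofNat 1638, .ofNat 1376, .ofNat 133, .ofNat 160, .ofNat 19, .ofNat 939, true, 0,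
    .nd 1 64 (.leaf ⟨5, 16, 1, 16, 738⟩ ⟨4, 2, 4, 2, 1, 1, 4, 2⟩) (.leaf ⟨5, 16, 1, 16, 738⟩ ⟨5, 3, 24, 4, 1, 1, 8, 4⟩),
    .leaf ⟨3, 4, 1, 4, 858⟩ ⟨4, 3, 8, 4, 1, 1, 8, 4⟩,
    .leaf ⟨3, 4, 1, 4, 422⟩ ⟨2, 1, 2, 1, 1, 1, 2, 1⟩⟩

def zA1_9 : ZT :=
  .z ⟨.negSucc 1459064, .negSucc 163735, .ofNat 1049514, .negSucc 545645, .ofNat 92504, .negSucc 2752, .ofNat 170, .ofNat 2681, .ofNat 2753, .ofNat 1292, .ofNat 139, .ofNat 159, .ofNat 13, .ofNat 739, false, 0,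
    .nd 1 64 (.leaf ⟨3, 4, 1, 4, 675⟩ ⟨4, 4, 4, 8, 1, 1, 4, 8⟩) (.leaf ⟨3, 4, 1, 4, 675⟩ ⟨4, 7, 12, 64, 1, 5, 4, 13⟩),
    .leaf ⟨3, 4, 1, 4, 859⟩ ⟨3, 9, 4, 256, 1, 43, 4, 6⟩,
    .leaf ⟨3, 4, 1, 4, 422⟩ ⟨2, 2, 2, 2, 1, 1, 2, 2⟩⟩

def zA1_10 : ZT :=
  .nd 1 64 (.z ⟨.negSucc 409550, .negSucc 709381, .ofNat 997186, .negSucc 635953, .ofNat 94647, .negSucc 6553, .ofNat 238, .ofNat 2892, .ofNat 6554, .ofNat 1139, .ofNat 138, .ofNat 159, .ofNat 5, .ofNat 358, false, 0,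
    .leaf ⟨5, 16, 1, 16, 750⟩ ⟨5, 9, 8, 256, 1, 37, 8, 7⟩,
    .leaf ⟨3, 4, 1, 4, 859⟩ ⟨4, 2, 4, 2, 1, 1, 4, 2⟩,
    .leaf ⟨3, 4, 1, 4, 422⟩ ⟨3, 1, 2, 1, 1, 1, 2, 1⟩⟩) (.z ⟨.negSucc 409550, .negSucc 709381, .ofNat 997186, .negSucc 635953, .ofNat 104075, .negSucc 19660, .ofNat 213, .negSucc 8842, .ofNat 19661, .ofNat 1292, .ofNat 141, .ofNat 146, .ofNat 7, .ofNat 739, false, 0,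
    .nd 2 64 (.leaf ⟨5, 16, 1, 16, 750⟩ ⟨4, 4, 12, 4, 1, 1, 4, 4⟩) (.leaf ⟨5, 16, 1, 16, 750⟩ ⟨4, 4, 12, 12, 1, 1, 4, 4⟩),
    .leaf ⟨3, 4, 1, 4, 859⟩ ⟨5, 8, 24, 128, 1, 13, 8, 10⟩,
    .leaf ⟨3, 4, 1, 4, 422⟩ ⟨2, 2, 3, 2, 1, 1, 1, 2⟩⟩)

def zA1_11 : ZT :=
  .nd 1 64 (.z ⟨.ofNat 587635, .negSucc 1345335, .ofNat 350260, .negSucc 279152, .ofNat 94267, .negSucc 13106, .ofNat 238, .ofNat 2951, .ofNat 13107, .ofNat 1172, .ofNat 139, .ofNat 159, .ofNat 5, .ofNat 449, false, 0,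
    .leaf ⟨5, 16, 1, 16, 750⟩ ⟨6, 8, 16, 128, 1, 43, 16, 3⟩,
    .leaf ⟨3, 4, 1, 4, 859⟩ ⟨4, 3, 4, 4, 1, 1, 4, 4⟩,
    .leaf ⟨3, 4, 1, 4, 422⟩ ⟨3, 1, 2, 1, 1, 1, 2, 1⟩⟩) (.z ⟨.ofNat 587635, .negSucc 1345335, .ofNat 350260, .negSucc 279152, .ofNat 100419, .negSucc 16383, .ofNat 104, .negSucc 7775, .ofNat 16384, .ofNat 1376, .ofNat 145, .ofNat 145, .ofNat 13, .ofNat 938, true, 0,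
    .leaf ⟨5, 16, 1, 16, 750⟩ ⟨4, 7, 12, 64, 1, 13, 4, 5⟩,
    .leaf ⟨3, 4, 1, 4, 859⟩ ⟨4, 3, 12, 4, 1, 1, 4, 4⟩,
    .leaf ⟨3, 4, 1, 4, 422⟩ ⟨2, 1, 3, 1, 1, 1, 1, 1⟩⟩)

end Pool.H61.Rh
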