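import Pool.Agent.H81.Lv.Zc
import Pool.Agent.H81.Lv.SymA
import Pool.Agent.H81.Zn.DA1

/-! # generated: check B, data A, vertex 1 -/

set_option autoImplicit false
set_option maxRecDepth 100000

namespace Pool.H61.Rh

open Pool.H47.Kc Pool.H47.K3

theorem cBA1_1 : allT (fB1 SA1R ⟨40, 16, 16⟩)
    [zA1_4, zA1_5, zA1_6, zA1_7, zA1_8] = true := by
  decide +kernel

end Pool.H61.Rh
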