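import Pool.Agent.H81.Lv.Zj
import Pool.Agent.H81.Zn.FA1_0
import Pool.Agent.H81.Zn.FA1_1
import Pool.Agent.H81.Zn.FA1_2
import Pool.Agent.H81.Zn.BA1_0
import Pool.Agent.H81.Zn.BA1_1
import Pool.Agent.H81.Zn.BA1_2
import Pool.Agent.H81.Zn.AA1_0

/-! # generated: the checks of the zones, data A, vertex 1 -/

set_option autoImplicit false
set_option maxRecDepth 100000

namespace Pool.H61.Rh

open Complex Pool.H47.Kc Pool.H47.K3

/-- the zones of the data A, vertex 1 -/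
def zA1 : Fin 12 → ZT := ![zA1_0, zA1_1, zA1_2, zA1_3, zA1_4, zA1_5, zA1_6, zA1_7, zA1_8, zA1_9, zA1_10, zA1_11]

theorem kA1_0 : (zA1_0).chk (fun d _ => okZ 0 false d) top = true := by
  decide +kernel

theorem kA1_1 : (zA1_1).chk (fun d _ => okZ 1 false d) top = true := by
  decide +kernel

theorem kA1_2 : (zA1_2).chk (fun d _ => okZ 2 false d) top = true := by
  decide +kernel

theorem kA1_3 : (zA1_3).chk (fun d _ => okZ 3 false d) top = true := by
  decide +kernel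

theorem kA1_4 : (zA1_4).chk (fun d _ => okZ 4 false d) top = true := by
  decide +kernel

theorem kA1_5 : (zA1_5).chk (fun d _ => okZ 5 false d) top = true := by
  decide +kernel

theorem kA1_6 : (zA1_6).chk (fun d _ => okZ 6 false d) top = true := by
  decide +kernel

theorem kA1_7 : (zA1_7).chk (fun d _ => okZ 7 false d) top = true := by
  decide +kernel

theorem kA1_8 : (zA1_8).chk (fun d _ => okZ 8 false d) top = true := by
  decide +kernel

theorem kA1_9 : (zA1_9).chk (fun d _ => okZ 9 false d) top = true := by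
  decide +kernel

theorem kA1_10 : (zA1_10).chk (fun d _ => okZ 10 false d) top = true := by
  decide +kernel

theorem kA1_11 : (zA1_11).chk (fun d _ => okZ 11 false d) top = true := by
  decide +kernel

theorem tKA1 : ∀ l : Fin 12, (zA1 l).chk (fun d _ => okZ l false d) top = true
  | 0 => kA1_0
  | 1 => kA1_1
  | 2 => kA1_2
  | 3 => kA1_3
  | 4 => kA1_4
  | 5 => kA1_5
  | 6 => kA1_6
  | 7 => kA1_7
  | 8 => kA1_8
  | 9 => kA1_9
  | 10 => kA1_10
  | 11 => kA1_11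

theorem tFA1 : ∀ l : Fin 12, (zA1 l).chk (fF1 SA1E ⟨36, 16, 16⟩) top = true
  | 0 => allT_mem cFA1_0 (T := zA1_0) (by simp)
  | 1 => allT_mem cFA1_0 (T := zA1_1) (by simp)
  | 2 => allT_mem cFA1_0 (T := zA1_2) (by simp)
  | 3 => allT_mem cFA1_0 (T := zA1_3) (by simp)
  | 4 => allT_mem cFA1_1 (T := zA1_4) (by simp)
  | 5 => allT_mem cFA1_1 (T := zA1_5) (by simp)
  | 6 => allT_mem cFA1_1 (T := zA1_6) (by simp)
  | 7 => allT_mem cFA1_1 (T := zA1_7) (by simp)
  | 8 => allT_mem cFA1_1 (T := zA1_8) (by simp)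
  | 9 => allT_mem cFA1_2 (T := zA1_9) (by simp)
  | 10 => allT_mem cFA1_2 (T := zA1_10) (by simp)
  | 11 => allT_mem cFA1_2 (T := zA1_11) (by simp)

theorem tBA1 : ∀ l : Fin 12, (zA1 l).chk (fB1 SA1R ⟨40, 16, 16⟩) top = true
  | 0 => allT_mem cBA1_0 (T := zA1_0) (by simp)
  | 1 => allT_mem cBA1_0 (T := zA1_1) (by simp)
  | 2 => allT_mem cBA1_0 (T := zA1_2) (by simp)
  | 3 => allT_mem cBA1_0 (T := zA1_3) (by simp)
  | 4 => allT_mem cBA1_1 (T := zA1_4) (by simp)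
  | 5 => allT_mem cBA1_1 (T := zA1_5) (by simp)
  | 6 => allT_mem cBA1_1 (T := zA1_6) (by simp)
  | 7 => allT_mem cBA1_1 (T := zA1_7) (by simp)
  | 8 => allT_mem cBA1_1 (T := zA1_8) (by simp)
  | 9 => allT_mem cBA1_2 (T := zA1_9) (by simp)
  | 10 => allT_mem cBA1_2 (T := zA1_10) (by simp)
  | 11 => allT_mem cBA1_2 (T := zA1_11) (by simp)

theorem tAA1 : ∀ l : Fin 12, (zA1 l).chk (fA1 SA1R ⟨28, 7, 7⟩) top = true
  | 0 => allT_mem cAA1_0 (T := zA1_0) (by simp)
  | 1 => allT_mem cAA1_0 (T := zA1_1) (by simp)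
  | 2 => allT_mem cAA1_0 (T := zA1_2) (by simp)
  | 3 => allT_mem cAA1_0 (T := zA1_3) (by simp)
  | 4 => allT_mem cAA1_0 (T := zA1_4) (by simp)
  | 5 => allT_mem cAA1_0 (T := zA1_5) (by simp)
  | 6 => allT_mem cAA1_0 (T := zA1_6) (by simp)
  | 7 => allT_mem cAA1_0 (T := zA1_7) (by simp)
  | 8 => allT_mem cAA1_0 (T := zA1_8) (by simp)
  | 9 => allT_mem cAA1_0 (T := zA1_9) (by simp)
  | 10 => allT_mem cAA1_0 (T := zA1_10) (by simp)
  | 11 => allT_mem cAA1_0 (T := zA1_11) (by simp)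

end Pool.H61.Rh
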