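import Pool.Agent.H81.Lv.Tree

/-! # generated: zones of the data A, vertex 2 -/

set_option autoImplicit false
set_option maxRecDepth 100000

namespace Pool.H61.Rh

open Pool.H47.Kc Pool.H47.K3

def zA2_0 : ZT :=
  .nd 1 64 (.z ⟨.ofNat 937895, .negSucc 1624488, .negSucc 66464, .ofNat 442889, .ofNat 96481, .negSucc 4411, .ofNat 122, .ofNat 777, .ofNat 4412, .ofNat 1172, .ofNat 132, .ofNat 138, .ofNat 5, .ofNat 449, false, 8,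
    .nd 0 96 (.leaf ⟨3, 3, 1, 3, 606⟩ ⟨4, 2, 4, 2, 1, 1, 4, 2⟩) (.nd 1 8 (.skip) (.leaf ⟨5, 28, 1, 4, 703⟩ ⟨7, 2, 36, 2, 7, 1, 4, 2⟩)),
    .leaf ⟨3, 4, 1, 4, 843⟩ ⟨3, 1, 2, 1, 1, 1, 2, 1⟩,
    .leaf ⟨3, 4, 1, 4, 440⟩ ⟨3, 1, 2, 1, 1, 1, 2, 1⟩⟩) (.nd 1 112 (.z ⟨.ofNat 937895, .negSucc 1624488, .negSucc 66464, .ofNat 442889, .ofNat 94137, .negSucc 4368, .ofNat 53, .ofNat 195, .ofNat 4369, .ofNat 1328, .ofNat 136, .ofNat 152, .ofNat 9, .ofNat 815, false, 0,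
    .leaf ⟨3, 4, 1, 4, 642⟩ ⟨6, 3, 44, 4, 3, 1, 4, 4⟩,
    .leaf ⟨3, 4, 1, 4, 843⟩ ⟨5, 2, 22, 2, 3, 1, 2, 2⟩,
    .leaf ⟨3, 4, 1, 4, 440⟩ ⟨5, 1, 22, 1, 3, 1, 2, 1⟩⟩) (.z ⟨.ofNat 937895, .negSucc 1624488, .negSucc 66464, .ofNat 442889, .ofNat 90360, .ofNat 0, .ofNat 38, .ofNat 2332, .ofNat 0, .ofNat 1376, .ofNat 141, .ofNat 133, .ofNat 13, .ofNat 938, true, 0,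
    .nd 2 64 (.leaf ⟨5, 16, 1, 16, 723⟩ ⟨6, 4, 60, 4, 1, 1, 4, 4⟩) (.leaf ⟨3, 4, 1, 4, 642⟩ ⟨4, 2, 15, 3, 1, 1, 1, 1⟩),
    .leaf ⟨3, 4, 1, 4, 843⟩ ⟨5, 3, 30, 4, 1, 1, 2, 4⟩,
    .leaf ⟨3, 4, 1, 4, 440⟩ ⟨4, 2, 15, 2, 1, 1, 1, 2⟩⟩))

def zA2_1 : ZT :=
  .nd 1 64 (.z ⟨.ofNat 871430, .negSucc 1181599, .negSucc 52327, .ofNat 1181600, .ofNat 96761, .negSucc 3096, .ofNat 201, .ofNat 840, .ofNat 3097, .ofNat 1134, .ofNat 134, .ofNat 121, .ofNat 5, .ofNat 344, false, 10,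
    .nd 0 96 (.leaf ⟨3, 3, 1, 3, 606⟩ ⟨4, 3, 4, 4, 1, 1, 4, 4⟩) (.nd 1 10 (.skip) (.leaf ⟨5, 28, 1, 4, 703⟩ ⟨7, 4, 37, 8, 3, 1, 9, 8⟩)),
    .leaf ⟨3, 4, 1, 4, 843⟩ ⟨3, 2, 2, 2, 1, 1, 2, 2⟩,
    .leaf ⟨3, 4, 1, 4, 440⟩ ⟨3, 1, 2, 1, 1, 1, 2, 1⟩⟩) (.z ⟨.ofNat 871430, .negSucc 1181599, .negSucc 52327, .ofNat 1181600, .ofNat 102662, .negSucc 19660, .ofNat 129, .negSucc 7398, .ofNat 19661, .ofNat 1292, .ofNat 138, .ofNat 130, .ofNat 7, .ofNat 739, false, 0,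
    .leaf ⟨5, 16, 1, 16, 723⟩ ⟨8, 4, 192, 8, 13, 1, 5, 8⟩,
    .leaf ⟨3, 4, 1, 4, 843⟩ ⟨3, 3, 6, 4, 1, 1, 2, 4⟩,
    .leaf ⟨3, 4, 1, 4, 440⟩ ⟨2, 2, 3, 2, 1, 1, 1, 2⟩⟩)

def zA2_2 : ZT :=
  .z ⟨.ofNat 819102, .ofNat 0, .ofNat 52328, .ofNat 1181600, .ofNat 94040, .negSucc 797, .ofNat 104, .ofNat 1220, .ofNat 798, .ofNat 1292, .ofNat 139, .ofNat 112, .ofNat 7, .ofNat 739, false, 14,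
    .nd 0 96 (.leaf ⟨5, 12, 1, 12, 703⟩ ⟨7, 4, 64, 8, 5, 1, 13, 8⟩) (.nd 1 14 (.skip) (.nd 1 71 (.leaf ⟨5, 28, 1, 4, 749⟩ ⟨9, 5, 170, 16, 19, 1, 6, 16⟩) (.leaf ⟨5, 28, 1, 4, 749⟩ ⟨8, 3, 199, 4, 29, 1, 2, 4⟩))),
    .leaf ⟨3, 4, 1, 4, 843⟩ ⟨9, 3, 256, 4, 43, 1, 6, 4⟩,
    .leaf ⟨3, 4, 1, 4, 440⟩ ⟨2, 2, 2, 2, 1, 1, 2, 2⟩⟩

def zA2_3 : ZT :=
  .nd 1 64 (.z ⟨.ofNat 871430, .ofNat 1181600, .ofNat 66465, .ofNat 442889, .ofNat 95724, .negSucc 1057, .ofNat 136, .ofNat 1013, .ofNat 1058, .ofNat 1212, .ofNat 136, .ofNat 112, .ofNat 8, .ofNat 552, false, 12,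
    .nd 0 96 (.leaf ⟨3, 3, 1, 3, 596⟩ ⟨4, 2, 4, 2, 1, 1, 4, 2⟩) (.nd 1 12 (.skip) (.leaf ⟨5, 28, 1, 4, 749⟩ ⟨9, 3, 152, 4, 21, 1, 5, 4⟩)),
    .leaf ⟨3, 4, 1, 4, 860⟩ ⟨3, 2, 2, 2, 1, 1, 2, 2⟩,
    .leaf ⟨3, 4, 1, 4, 440⟩ ⟨2, 1, 1, 1, 1, 1, 1, 1⟩⟩) (.z ⟨.ofNat 871430, .ofNat 1181600, .ofNat 66465, .ofNat 442889, .ofNat 101887, .negSucc 19660, .ofNat 56, .negSucc 9212, .ofNat 19661, .ofNat 1376, .ofNat 137, .ofNat 90, .ofNat 19, .ofNat 937, true, 0,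
    .leaf ⟨5, 16, 1, 16, 655⟩ ⟨4, 2, 12, 2, 1, 1, 4, 2⟩,
    .leaf ⟨3, 4, 1, 4, 860⟩ ⟨4, 1, 12, 1, 1, 1, 4, 1⟩,
    .leaf ⟨3, 4, 1, 4, 440⟩ ⟨2, 2, 3, 2, 1, 1, 1, 2⟩⟩)

def zA2_4 : ZT :=
  .nd 1 64 (.z ⟨.ofNat 937895, .ofNat 1624489, .negSucc 350259, .negSucc 279152, .ofNat 95724, .negSucc 1057, .ofNat 136, .ofNat 1013, .ofNat 1058, .ofNat 1212, .ofNat 136, .ofNat 112, .ofNat 8, .ofNat 552, false, 12,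
    .nd 0 96 (.leaf ⟨3, 3, 1, 3, 596⟩ ⟨4, 2, 4, 2, 1, 1, 4, 2⟩) (.nd 1 12 (.skip) (.leaf ⟨5, 28, 1, 4, 749⟩ ⟨8, 2, 76, 2, 13, 1, 4, 2⟩)),
    .leaf ⟨3, 4, 1, 4, 860⟩ ⟨3, 2, 2, 2, 1, 1, 2, 2⟩,
    .leaf ⟨3, 4, 1, 4, 440⟩ ⟨2, 1, 1, 1, 1, 1, 1, 1⟩⟩) (.z ⟨.ofNat 937895, .ofNat 1624489, .negSucc 350259, .negSucc 279152, .ofNat 101898, .negSucc 19660, .ofNat 56, .negSucc 9211, .ofNat 19661, .ofNat 1376, .ofNat 136, .ofNat 89, .ofNat 19, .ofNat 937, true, 0,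
    .leaf ⟨5, 16, 1, 16, 655⟩ ⟨4, 2, 12, 2, 1, 1, 4, 2⟩,
    .leaf ⟨3, 4, 1, 4, 860⟩ ⟨4, 1, 12, 1, 1, 1, 4, 1⟩,
    .leaf ⟨3, 4, 1, 4, 440⟩ ⟨2, 3, 3, 4, 1, 1, 1, 4⟩⟩)

def zA2_5 : ZT :=
  .z ⟨.ofNat 587635, .ofNat 1345336, .negSucc 997185, .negSucc 635953, .ofNat 94015, .negSucc 867, .ofNat 104, .ofNat 1220, .ofNat 868, .ofNat 1292, .ofNat 136, .ofNat 112, .ofNat 13, .ofNat 738, false, 16,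
    .nd 0 96 (.leaf ⟨5, 12, 1, 12, 738⟩ ⟨4, 9, 8, 256, 1, 29, 8, 9⟩) (.nd 1 16 (.skip) (.nd 1 72 (.leaf ⟨5, 28, 1, 4, 768⟩ ⟨6, 9, 22, 256, 1, 29, 14, 9⟩) (.leaf ⟨5, 28, 1, 4, 768⟩ ⟨7, 3, 100, 4, 7, 1, 4, 4⟩))),
    .leaf ⟨3, 4, 1, 4, 860⟩ ⟨4, 9, 8, 256, 1, 43, 8, 6⟩,
    .leaf ⟨3, 4, 1, 4, 440⟩ ⟨2, 2, 2, 2, 1, 1, 2, 2⟩⟩

def zA2_6 : ZT :=
  .z ⟨.negSucc 409550, .ofNat 709382, .negSucc 1049513, .negSucc 545645, .ofNat 94417, .negSucc 1602, .ofNat 80, .ofNat 822, .ofNat 1603, .ofNat 1293, .ofNat 132, .ofNat 112, .ofNat 14, .ofNat 740, false, 13,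
    .nd 0 96 (.leaf ⟨3, 3, 1, 3, 673⟩ ⟨7, 4, 64, 8, 13, 1, 5, 8⟩) (.nd 1 13 (.skip) (.nd 1 71 (.leaf ⟨5, 28, 1, 4, 768⟩ ⟨9, 5, 168, 16, 13, 1, 9, 16⟩) (.leaf ⟨5, 28, 1, 4, 768⟩ ⟨8, 3, 199, 4, 29, 1, 2, 4⟩))),
    .leaf ⟨3, 4, 1, 4, 860⟩ ⟨8, 3, 128, 4, 43, 1, 3, 4⟩,
    .leaf ⟨3, 4, 1, 4, 440⟩ ⟨1, 3, 1, 4, 1, 1, 1, 4⟩⟩

def zA2_7 : ZT :=
  .nd 1 96 (.z ⟨.negSucc 1459064, .ofNat 163736, .negSucc 416724, .negSucc 163735, .ofNat 94384, .negSucc 6429, .ofNat 116, .ofNat 842, .ofNat 6430, .ofNat 1294, .ofNat 131, .ofNat 113, .ofNat 13, .ofNat 743, false, 10,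
    .nd 0 96 (.leaf ⟨3, 3, 1, 3, 673⟩ ⟨3, 1, 3, 1, 1, 1, 3, 1⟩) (.nd 1 10 (.skip) (.leaf ⟨5, 28, 1, 4, 768⟩ ⟨8, 3, 106, 4, 11, 1, 8, 4⟩)),
    .leaf ⟨3, 4, 1, 4, 762⟩ ⟨3, 1, 3, 1, 1, 1, 3, 1⟩,
    .leaf ⟨3, 4, 1, 4, 440⟩ ⟨3, 1, 3, 1, 3, 1, 1, 1⟩⟩) (.z ⟨.negSucc 1459064, .ofNat 163736, .negSucc 416724, .negSucc 163735, .ofNat 90698, .ofNat 0, .ofNat 40, .ofNat 2144, .ofNat 0, .ofNat 1376, .ofNat 122, .ofNat 82, .ofNat 19, .ofNat 939, true, 0,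
    .leaf ⟨5, 16, 1, 16, 672⟩ ⟨5, 3, 28, 4, 1, 1, 4, 4⟩,
    .leaf ⟨3, 4, 1, 4, 762⟩ ⟨4, 2, 14, 2, 1, 1, 2, 2⟩,
    .leaf ⟨3, 4, 1, 4, 440⟩ ⟨3, 1, 7, 1, 1, 1, 1, 1⟩⟩)

def zA2_8 : ZT :=
  .nd 1 96 (.z ⟨.negSucc 1875789, .ofNat 0, .ofNat 416725, .negSucc 163735, .ofNat 94449, .negSucc 4134, .ofNat 89, .ofNat 777, .ofNat 4135, .ofNat 1294, .ofNat 131, .ofNat 115, .ofNat 13, .ofNat 743, false, 10,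
    .nd 0 96 (.leaf ⟨3, 3, 1, 3, 608⟩ ⟨3, 1, 3, 1, 1, 1, 3, 1⟩) (.nd 1 10 (.skip) (.leaf ⟨5, 28, 1, 4, 737⟩ ⟨9, 2, 212, 2, 25, 1, 7, 2⟩)),
    .leaf ⟨3, 4, 1, 4, 762⟩ ⟨3, 1, 3, 1, 1, 1, 3, 1⟩,
    .leaf ⟨3, 4, 1, 4, 440⟩ ⟨3, 1, 3, 1, 3, 1, 1, 1⟩⟩) (.z ⟨.negSucc 1875789, .ofNat 0, .ofNat 416725, .negSucc 163735, .ofNat 94049, .negSucc 6553, .ofNat 65, .negSucc 1277, .ofNat 6554, .ofNat 1376, .ofNat 127, .ofNat 123, .ofNat 19, .ofNat 939, true, 0,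
    .leaf ⟨5, 16, 1, 16, 673⟩ ⟨4, 3, 14, 4, 1, 1, 2, 4⟩,
    .leaf ⟨3, 4, 1, 4, 762⟩ ⟨3, 3, 7, 4, 1, 1, 1, 4⟩,
    .leaf ⟨3, 4, 1, 4, 440⟩ ⟨3, 1, 7, 1, 1, 1, 1, 1⟩⟩)

def zA2_9 : ZT :=
  .nd 1 96 (.z ⟨.negSucc 1459064, .negSucc 163735, .ofNat 1049514, .negSucc 545645, .ofNat 95786, .negSucc 3703, .ofNat 104, .ofNat 696, .ofNat 3704, .ofNat 1229, .ofNat 134, .ofNat 166, .ofNat 10, .ofNat 592, false, 13,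
    .nd 0 96 (.leaf ⟨3, 3, 1, 3, 608⟩ ⟨3, 4, 3, 8, 1, 1, 3, 8⟩) (.nd 1 13 (.skip) (.leaf ⟨5, 28, 1, 4, 737⟩ ⟨6, 7, 27, 64, 3, 13, 7, 5⟩)),
    .leaf ⟨3, 4, 1, 4, 762⟩ ⟨3, 2, 3, 2, 1, 1, 3, 2⟩,
    .leaf ⟨3, 4, 1, 4, 440⟩ ⟨3, 8, 3, 128, 3, 43, 1, 3⟩⟩) (.z ⟨.negSucc 1459064, .negSucc 163735, .ofNat 1049514, .negSucc 545645, .ofNat 95595, .negSucc 6553, .ofNat 116, .negSucc 443, .ofNat 6554, .ofNat 1292, .ofNat 140, .ofNat 241, .ofNat 13, .ofNat 739, false, 0,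
    .leaf ⟨5, 16, 1, 16, 673⟩ ⟨4, 4, 14, 8, 1, 1, 2, 8⟩,
    .leaf ⟨3, 4, 1, 4, 762⟩ ⟨3, 3, 7, 4, 1, 1, 1, 4⟩,
    .leaf ⟨3, 4, 1, 4, 440⟩ ⟨3, 2, 7, 2, 1, 1, 1, 2⟩⟩)

def zA2_10 : ZT :=
  .nd 1 96 (.z ⟨.negSucc 409550, .negSucc 709381, .ofNat 997186, .negSucc 635953, .ofNat 96053, .negSucc 5942, .ofNat 152, .ofNat 731, .ofNat 5943, .ofNat 1210, .ofNat 134, .ofNat 180, .ofNat 5, .ofNat 547, false, 9,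
    .nd 0 96 (.leaf ⟨5, 12, 1, 12, 681⟩ ⟨4, 3, 6, 4, 1, 1, 6, 4⟩) (.nd 1 9 (.skip) (.leaf ⟨5, 28, 1, 4, 816⟩ ⟨9, 9, 210, 256, 11, 43, 16, 6⟩)),
    .leaf ⟨3, 4, 1, 4, 845⟩ ⟨5, 3, 12, 4, 3, 1, 4, 4⟩,
    .leaf ⟨3, 4, 1, 4, 440⟩ ⟨4, 2, 6, 2, 3, 1, 2, 2⟩⟩) (.z ⟨.negSucc 409550, .negSucc 709381, .ofNat 997186, .negSucc 635953, .ofNat 105040, .negSucc 19660, .ofNat 122, .negSucc 9845, .ofNat 19661, .ofNat 1292, .ofNat 139, .ofNat 327, .ofNat 7, .ofNat 739, false, 0,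
    .nd 0 64 (.leaf ⟨4, 4, 1, 4, 704⟩ ⟨5, 7, 28, 64, 1, 13, 4, 5⟩) (.leaf ⟨4, 12, 1, 4, 636⟩ ⟨4, 3, 14, 4, 1, 1, 2, 4⟩),
    .leaf ⟨3, 4, 1, 4, 845⟩ ⟨5, 7, 28, 64, 1, 13, 4, 5⟩,
    .leaf ⟨3, 4, 1, 4, 440⟩ ⟨3, 2, 7, 2, 1, 1, 1, 2⟩⟩)

def zA2_11 : ZT :=
  .nd 1 96 (.z ⟨.ofNat 587635, .negSucc 1345335, .ofNat 350260, .negSucc 279152, .ofNat 94831, .negSucc 11198, .ofNat 180, .ofNat 921, .ofNat 11199, .ofNat 1271, .ofNat 134, .ofNat 176, .ofNat 6, .ofNat 692, false, 8,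
    .nd 0 96 (.leaf ⟨5, 12, 1, 12, 681⟩ ⟨7, 2, 48, 2, 7, 1, 7, 2⟩) (.nd 1 8 (.skip) (.leaf ⟨5, 28, 1, 4, 816⟩ ⟨5, 2, 13, 2, 1, 1, 11, 2⟩)),
    .leaf ⟨3, 4, 1, 4, 845⟩ ⟨5, 2, 12, 2, 3, 1, 4, 2⟩,
    .leaf ⟨3, 4, 1, 4, 422⟩ ⟨3, 1, 3, 1, 1, 1, 3, 1⟩⟩) (.z ⟨.ofNat 587635, .negSucc 1345335, .ofNat 350260, .negSucc 279152, .ofNat 95982, .negSucc 10711, .ofNat 65, .negSucc 3331, .ofNat 10712, .ofNat 1376, .ofNat 141, .ofNat 238, .ofNat 13, .ofNat 938, true, 0,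
    .nd 1 112 (.leaf ⟨3, 4, 1, 4, 590⟩ ⟨4, 1, 13, 1, 1, 1, 1, 1⟩) (.leaf ⟨5, 16, 1, 16, 738⟩ ⟨6, 7, 60, 64, 1, 13, 4, 5⟩),
    .leaf ⟨3, 4, 1, 4, 845⟩ ⟨4, 4, 14, 8, 1, 1, 2, 8⟩,
    .leaf ⟨3, 4, 1, 4, 422⟩ ⟨4, 1, 14, 1, 1, 1, 2, 1⟩⟩)

end Pool.H61.Rh
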