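import Pool.Agent.H81.Lv.Zj
import Pool.Agent.H81.Zn.FA2_0
import Pool.Agent.H81.Zn.FA2_1
import Pool.Agent.H81.Zn.FA2_2
import Pool.Agent.H81.Zn.FA2_3
import Pool.Agent.H81.Zn.FA2_4
import Pool.Agent.H81.Zn.BA2_0
import Pool.Agent.H81.Zn.BA2_1
import Pool.Agent.H81.Zn.BA2_2
import Pool.Agent.H81.Zn.BA2_3
import Pool.Agent.H81.Zn.AA2_0
import Pool.Agent.H81.Zn.AA2_1

/-! # generated: the checks of the zones, data A, vertex 2 -/

set_option autoImplicit false
set_option maxRecDepth 100000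

namespace Pool.H61.Rh

open Complex Pool.H47.Kc Pool.H47.K3

/-- the zones of the data A, vertex 2 -/
def zA2 : Fin 12 → ZT := ![zA2_0, zA2_1, zA2_2, zA2_3, zA2_4, zA2_5, zA2_6, zA2_7, zA2_8, zA2_9, zA2_10, zA2_11]

theorem kA2_0 : (zA2_0).chk (fun d _ => okZ 0 true d) top = true := by
  decide +kernel

theorem kA2_1 : (zA2_1).chk (fun d _ => okZ 1 true d) top = true := by
  decide +kernel

theorem kA2_2 : (zA2_2).chk (fun d _ => okZ 2 true d) top = true := by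
  decide +kernel

theorem kA2_3 : (zA2_3).chk (fun d _ => okZ 3 true d) top = true := by
  decide +kernel

theorem kA2_4 : (zA2_4).chk (fun d _ => okZ 4 true d) top = true := by
  decide +kernel

theorem kA2_5 : (zA2_5).chk (fun d _ => okZ 5 true d) top = true := by
  decide +kernel

theorem kA2_6 : (zA2_6).chk (fun d _ => okZ 6 true d) top = true := by
  decide +kernel

theorem kA2_7 : (zA2_7).chk (fun d _ => okZ 7 true d) top = true := by
  decide +kernel

theorem kA2_8 : (zA2_8).chk (fun d _ => okZ 8 true d) top = true := by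
  decide +kernel

theorem kA2_9 : (zA2_9).chk (fun d _ => okZ 9 true d) top = true := by
  decide +kernel

theorem kA2_10 : (zA2_10).chk (fun d _ => okZ 10 true d) top = true := by
  decide +kernel

theorem kA2_11 : (zA2_11).chk (fun d _ => okZ 11 true d) top = true := by
  decide +kernel

theorem tKA2 : ∀ l : Fin 12, (zA2 l).chk (fun d _ => okZ l true d) top = true
  | 0 => kA2_0
  | 1 => kA2_1
  | 2 => kA2_2
  | 3 => kA2_3
  | 4 => kA2_4
  | 5 => kA2_5
  | 6 => kA2_6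
  | 7 => kA2_7
  | 8 => kA2_8
  | 9 => kA2_9
  | 10 => kA2_10
  | 11 => kA2_11

theorem tFA2 : ∀ l : Fin 12, (zA2 l).chk (fF2 SA2E ⟨36, 16, 16⟩) top = true
  | 0 => allT_mem cFA2_0 (T := zA2_0) (by simp)
  | 1 => allT_mem cFA2_0 (T := zA2_1) (by simp)
  | 2 => allT_mem cFA2_1 (T := zA2_2) (by simp)
  | 3 => allT_mem cFA2_1 (T := zA2_3) (by simp)
  | 4 => allT_mem cFA2_1 (T := zA2_4) (by simp)
  | 5 => allT_mem cFA2_2 (T := zA2_5) (by simp)
  | 6 => allT_mem cFA2_2 (T := zA2_6) (by simp)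
  | 7 => allT_mem cFA2_2 (T := zA2_7) (by simp)
  | 8 => allT_mem cFA2_3 (T := zA2_8) (by simp)
  | 9 => allT_mem cFA2_3 (T := zA2_9) (by simp)
  | 10 => allT_mem cFA2_4 (T := zA2_10) (by simp)
  | 11 => allT_mem cFA2_4 (T := zA2_11) (by simp)

theorem tBA2 : ∀ l : Fin 12, (zA2 l).chk (fB2 SA2R ⟨40, 16, 16⟩) top = true
  | 0 => allT_mem cBA2_0 (T := zA2_0) (by simp)
  | 1 => allT_mem cBA2_0 (T := zA2_1) (by simp)
  | 2 => allT_mem cBA2_0 (T := zA2_2) (by simp)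
  | 3 => allT_mem cBA2_1 (T := zA2_3) (by simp)
  | 4 => allT_mem cBA2_1 (T := zA2_4) (by simp)
  | 5 => allT_mem cBA2_1 (T := zA2_5) (by simp)
  | 6 => allT_mem cBA2_1 (T := zA2_6) (by simp)
  | 7 => allT_mem cBA2_2 (T := zA2_7) (by simp)
  | 8 => allT_mem cBA2_2 (T := zA2_8) (by simp)
  | 9 => allT_mem cBA2_2 (T := zA2_9) (by simp)
  | 10 => allT_mem cBA2_3 (T := zA2_10) (by simp)
  | 11 => allT_mem cBA2_3 (T := zA2_11) (by simp)

theorem tAA2 : ∀ l : Fin 12, (zA2 l).chk (fA2 SA2R ⟨28, 7, 7⟩) top = true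
  | 0 => allT_mem cAA2_0 (T := zA2_0) (by simp)
  | 1 => allT_mem cAA2_0 (T := zA2_1) (by simp)
  | 2 => allT_mem cAA2_0 (T := zA2_2) (by simp)
  | 3 => allT_mem cAA2_0 (T := zA2_3) (by simp)
  | 4 => allT_mem cAA2_0 (T := zA2_4) (by simp)
  | 5 => allT_mem cAA2_0 (T := zA2_5) (by simp)
  | 6 => allT_mem cAA2_0 (T := zA2_6) (by simp)
  | 7 => allT_mem cAA2_0 (T := zA2_7) (by simp)
  | 8 => allT_mem cAA2_0 (T := zA2_8) (by simp)
  | 9 => allT_mem cAA2_0 (T := zA2_9) (by simp)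
  | 10 => allT_mem cAA2_0 (T := zA2_10) (by simp)
  | 11 => allT_mem cAA2_1 (T := zA2_11) (by simp)

end Pool.H61.Rh
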