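import Pool.Agent.H81.Lv.Tree

/-! # generated: zones of the data B, vertex 0 -/

set_option autoImplicit false
set_option maxRecDepth 100000

namespace Pool.H61.Rh

open Pool.H47.Kc Pool.H47.K3

def zB0_0 : ZT :=
  .nd 1 96 (.z ⟨.ofNat 937895, .negSucc 1624488, .negSucc 66464, .ofNat 442889, .ofNat 93837, .negSucc 3818, .ofNat 84, .ofNat 1588, .ofNat 3819, .ofNat 1271, .ofNat 149, .ofNat 204, .ofNat 27, .ofNat 692, false, 0,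
    .leaf ⟨5, 16, 1, 16, 713⟩ ⟨5, 1, 12, 1, 3, 1, 4, 1⟩,
    .leaf ⟨3, 4, 1, 4, 774⟩ ⟨5, 2, 12, 2, 3, 1, 4, 2⟩,
    .leaf ⟨3, 4, 1, 4, 393⟩ ⟨5, 2, 12, 2, 3, 1, 4, 2⟩⟩) (.z ⟨.ofNat 937895, .negSucc 1624488, .negSucc 66464, .ofNat 442889, .ofNat 96851, .negSucc 13106, .ofNat 62, .negSucc 4863, .ofNat 13107, .ofNat 1376, .ofNat 170, .ofNat 245, .ofNat 39, .ofNat 938, true, 0,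
    .leaf ⟨5, 16, 1, 16, 713⟩ ⟨5, 2, 28, 2, 1, 1, 4, 2⟩,
    .leaf ⟨3, 4, 1, 4, 774⟩ ⟨4, 2, 14, 2, 1, 1, 2, 2⟩,
    .leaf ⟨3, 4, 1, 4, 393⟩ ⟨4, 8, 14, 128, 1, 43, 2, 3⟩⟩)

def zB0_1 : ZT :=
  .nd 1 96 (.z ⟨.ofNat 871430, .negSucc 1181599, .negSucc 52327, .ofNat 1181600, .ofNat 93860, .negSucc 2996, .ofNat 104, .ofNat 2715, .ofNat 2997, .ofNat 1207, .ofNat 149, .ofNat 232, .ofNat 25, .ofNat 540, false, 0,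
    .leaf ⟨5, 16, 1, 16, 713⟩ ⟨5, 3, 12, 4, 3, 1, 4, 4⟩,
    .leaf ⟨3, 4, 1, 4, 774⟩ ⟨3, 2, 3, 2, 1, 1, 3, 2⟩,
    .leaf ⟨3, 4, 1, 4, 393⟩ ⟨3, 2, 3, 2, 1, 1, 3, 2⟩⟩) (.z ⟨.ofNat 871430, .negSucc 1181599, .negSucc 52327, .ofNat 1181600, .ofNat 107568, .negSucc 26213, .ofNat 170, .negSucc 13019, .ofNat 26214, .ofNat 1292, .ofNat 175, .ofNat 380, .ofNat 38, .ofNat 739, false, 0,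
    .leaf ⟨5, 16, 1, 16, 713⟩ ⟨5, 7, 28, 64, 1, 13, 4, 5⟩,
    .leaf ⟨3, 4, 1, 4, 774⟩ ⟨4, 3, 14, 4, 1, 1, 2, 4⟩,
    .leaf ⟨3, 4, 1, 4, 393⟩ ⟨4, 8, 14, 128, 1, 43, 2, 3⟩⟩)

def zB0_2 : ZT :=
  .nd 1 96 (.z ⟨.ofNat 819102, .ofNat 0, .ofNat 52328, .ofNat 1181600, .ofNat 95281, .negSucc 4368, .ofNat 99, .ofNat 1009, .ofNat 4369, .ofNat 1226, .ofNat 149, .ofNat 224, .ofNat 24, .ofNat 587, false, 0,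
    .leaf ⟨5, 16, 1, 16, 713⟩ ⟨3, 2, 3, 2, 1, 1, 3, 2⟩,
    .leaf ⟨3, 4, 1, 4, 774⟩ ⟨4, 2, 6, 2, 3, 1, 2, 2⟩,
    .leaf ⟨3, 4, 1, 4, 393⟩ ⟨4, 2, 6, 2, 3, 1, 2, 2⟩⟩) (.z ⟨.ofNat 819102, .ofNat 0, .ofNat 52328, .ofNat 1181600, .ofNat 98072, .negSucc 12306, .ofNat 122, .negSucc 3515, .ofNat 12307, .ofNat 1292, .ofNat 175, .ofNat 352, .ofNat 38, .ofNat 739, false, 0,
    .leaf ⟨5, 16, 1, 16, 713⟩ ⟨4, 3, 14, 4, 1, 1, 2, 4⟩,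
    .leaf ⟨3, 4, 1, 4, 774⟩ ⟨4, 3, 14, 4, 1, 1, 2, 4⟩,
    .leaf ⟨3, 4, 1, 4, 393⟩ ⟨3, 7, 7, 64, 1, 13, 1, 5⟩⟩)

def zB0_3 : ZT :=
  .nd 1 96 (.z ⟨.ofNat 871430, .ofNat 1181600, .ofNat 66465, .ofNat 442889, .ofNat 92988, .negSucc 2184, .ofNat 72, .ofNat 2044, .ofNat 2185, .ofNat 1293, .ofNat 144, .ofNat 179, .ofNat 21, .ofNat 741, false, 0,
    .leaf ⟨3, 4, 1, 4, 554⟩ ⟨3, 1, 3, 1, 1, 1, 3, 1⟩,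
    .leaf ⟨3, 4, 1, 4, 829⟩ ⟨4, 2, 6, 2, 3, 1, 2, 2⟩,
    .leaf ⟨3, 4, 1, 4, 393⟩ ⟨4, 1, 6, 1, 3, 1, 2, 1⟩⟩) (.z ⟨.ofNat 871430, .ofNat 1181600, .ofNat 66465, .ofNat 442889, .ofNat 98670, .negSucc 13106, .ofNat 59, .negSucc 6356, .ofNat 13107, .ofNat 1376, .ofNat 152, .ofNat 219, .ofNat 30, .ofNat 937, true, 0,
    .leaf ⟨5, 16, 1, 16, 713⟩ ⟨4, 1, 14, 1, 1, 1, 2, 1⟩,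
    .leaf ⟨3, 4, 1, 4, 829⟩ ⟨4, 1, 14, 1, 1, 1, 2, 1⟩,
    .leaf ⟨3, 4, 1, 4, 393⟩ ⟨4, 1, 14, 1, 1, 1, 2, 1⟩⟩)

def zB0_4 : ZT :=
  .nd 1 96 (.z ⟨.ofNat 937895, .ofNat 1624489, .negSucc 350259, .negSucc 279152, .ofNat 92339, .negSucc 1034, .ofNat 59, .ofNat 2715, .ofNat 1035, .ofNat 1293, .ofNat 143, .ofNat 167, .ofNat 20, .ofNat 741, false, 0,
    .leaf ⟨3, 4, 1, 4, 575⟩ ⟨4, 1, 6, 1, 3, 1, 2, 1⟩,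
    .leaf ⟨3, 4, 1, 4, 829⟩ ⟨4, 1, 6, 1, 3, 1, 2, 1⟩,
    .leaf ⟨3, 4, 1, 4, 393⟩ ⟨4, 8, 6, 128, 3, 43, 2, 3⟩⟩) (.z ⟨.ofNat 937895, .ofNat 1624489, .negSucc 350259, .negSucc 279152, .ofNat 88976, .negSucc 2688, .ofNat 65, .ofNat 3456, .ofNat 2689, .ofNat 1376, .ofNat 152, .ofNat 153, .ofNat 23, .ofNat 937, true, 0,
    .leaf ⟨5, 16, 1, 16, 706⟩ ⟨4, 2, 14, 2, 1, 1, 2, 2⟩,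
    .leaf ⟨3, 4, 1, 4, 829⟩ ⟨4, 2, 14, 2, 1, 1, 2, 2⟩,
    .leaf ⟨3, 4, 1, 4, 393⟩ ⟨4, 2, 14, 2, 1, 1, 2, 2⟩⟩)

def zB0_5 : ZT :=
  .z ⟨.ofNat 587635, .ofNat 1345336, .negSucc 997185, .negSucc 635953, .ofNat 92256, .ofNat 0, .ofNat 56, .ofNat 2775, .ofNat 0, .ofNat 1292, .ofNat 140, .ofNat 167, .ofNat 28, .ofNat 738, false, 0,
    .leaf ⟨5, 16, 1, 16, 706⟩ ⟨3, 3, 4, 4, 1, 1, 4, 4⟩,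
    .leaf ⟨3, 4, 1, 4, 829⟩ ⟨8, 3, 128, 4, 43, 1, 3, 4⟩,
    .leaf ⟨3, 4, 1, 4, 393⟩ ⟨8, 3, 128, 4, 43, 1, 3, 4⟩⟩

def zB0_6 : ZT :=
  .z ⟨.negSucc 409550, .ofNat 709382, .negSucc 1049513, .negSucc 545645, .ofNat 91958, .ofNat 1638, .ofNat 62, .ofNat 3307, .negSucc 1637, .ofNat 1293, .ofNat 111, .ofNat 166, .ofNat 28, .ofNat 740, false, 0,
    .leaf ⟨5, 16, 1, 16, 706⟩ ⟨8, 4, 128, 8, 43, 1, 3, 8⟩,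
    .leaf ⟨3, 4, 1, 4, 829⟩ ⟨2, 3, 2, 4, 1, 1, 2, 4⟩,
    .leaf ⟨3, 4, 1, 4, 393⟩ ⟨2, 2, 2, 2, 1, 1, 2, 2⟩⟩

def zB0_7 : ZT :=
  .z ⟨.negSucc 1459064, .ofNat 163736, .negSucc 416724, .negSucc 163735, .ofNat 92099, .negSucc 9829, .ofNat 180, .ofNat 637, .ofNat 9830, .ofNat 1376, .ofNat 119, .ofNat 166, .ofNat 27, .ofNat 939, true, 0,
    .leaf ⟨3, 4, 1, 4, 575⟩ ⟨2, 1, 2, 1, 1, 1, 2, 1⟩,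
    .leaf ⟨3, 4, 1, 4, 829⟩ ⟨4, 3, 8, 4, 1, 1, 8, 4⟩,
    .leaf ⟨3, 4, 1, 4, 393⟩ ⟨2, 1, 2, 1, 1, 1, 2, 1⟩⟩

def zB0_8 : ZT :=
  .z ⟨.negSucc 1875789, .ofNat 0, .ofNat 416725, .negSucc 163735, .ofNat 92024, .negSucc 9829, .ofNat 180, .ofNat 638, .ofNat 9830, .ofNat 1376, .ofNat 127, .ofNat 166, .ofNat 26, .ofNat 939, true, 0,
    .leaf ⟨3, 4, 1, 4, 575⟩ ⟨2, 1, 2, 1, 1, 1, 2, 1⟩,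
    .leaf ⟨3, 4, 1, 4, 869⟩ ⟨4, 3, 8, 4, 1, 1, 8, 4⟩,
    .leaf ⟨3, 4, 1, 4, 393⟩ ⟨2, 1, 2, 1, 1, 1, 2, 1⟩⟩

def zB0_9 : ZT :=
  .z ⟨.negSucc 1459064, .negSucc 163735, .ofNat 1049514, .negSucc 545645, .ofNat 94414, .negSucc 6553, .ofNat 190, .ofNat 637, .ofNat 6554, .ofNat 1292, .ofNat 139, .ofNat 166, .ofNat 26, .ofNat 739, false, 0,
    .leaf ⟨3, 4, 1, 4, 575⟩ ⟨2, 3, 2, 4, 1, 1, 2, 4⟩,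
    .leaf ⟨3, 4, 1, 4, 869⟩ ⟨4, 9, 8, 256, 1, 29, 8, 9⟩,
    .leaf ⟨3, 4, 1, 4, 393⟩ ⟨2, 2, 2, 2, 1, 1, 2, 2⟩⟩

def zB0_10 : ZT :=
  .z ⟨.negSucc 409550, .negSucc 709381, .ofNat 997186, .negSucc 635953, .ofNat 93128, .negSucc 2213, .ofNat 65, .ofNat 1714, .ofNat 2214, .ofNat 1292, .ofNat 158, .ofNat 170, .ofNat 30, .ofNat 739, false, 0,
    .leaf ⟨5, 16, 1, 16, 706⟩ ⟨3, 7, 4, 64, 1, 13, 4, 5⟩,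
    .leaf ⟨3, 4, 1, 4, 869⟩ ⟨7, 7, 64, 64, 13, 13, 5, 5⟩,
    .nd 1 64 (.leaf ⟨3, 4, 1, 4, 393⟩ ⟨2, 1, 1, 1, 1, 1, 1, 1⟩) (.leaf ⟨3, 4, 1, 4, 393⟩ ⟨3, 8, 6, 128, 1, 43, 2, 3⟩)⟩

def zB0_11 : ZT :=
  .nd 1 96 (.z ⟨.ofNat 587635, .negSucc 1345335, .ofNat 350260, .negSucc 279152, .ofNat 93153, .negSucc 2184, .ofNat 59, .ofNat 2279, .ofNat 2185, .ofNat 1271, .ofNat 149, .ofNat 178, .ofNat 27, .ofNat 692, false, 0,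
    .leaf ⟨5, 16, 1, 16, 647⟩ ⟨5, 2, 12, 2, 3, 1, 4, 2⟩,
    .leaf ⟨3, 4, 1, 4, 869⟩ ⟨5, 2, 12, 2, 3, 1, 4, 2⟩,
    .leaf ⟨3, 4, 1, 4, 393⟩ ⟨5, 2, 12, 2, 3, 1, 4, 2⟩⟩) (.z ⟨.ofNat 587635, .negSucc 1345335, .ofNat 350260, .negSucc 279152, .ofNat 85386, .ofNat 2784, .ofNat 50, .ofNat 6634, .negSucc 2783, .ofNat 1376, .ofNat 170, .ofNat 163, .ofNat 39, .ofNat 938, true, 0,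
    .leaf ⟨5, 16, 1, 16, 647⟩ ⟨5, 3, 28, 4, 1, 1, 4, 4⟩,
    .leaf ⟨3, 4, 1, 4, 869⟩ ⟨5, 3, 28, 4, 1, 1, 4, 4⟩,
    .leaf ⟨3, 4, 1, 4, 393⟩ ⟨4, 8, 14, 128, 1, 43, 2, 3⟩⟩)

end Pool.H61.Rh
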