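import Pool.Agent.H81.Lv.Zc
import Pool.Agent.H81.Lv.SymB
import Pool.Agent.H81.Zn.DB0

/-! # generated: check B, data B, vertex 0 -/

set_option autoImplicit false
set_option maxRecDepth 100000

namespace Pool.H61.Rh

open Pool.H47.Kc Pool.H47.K3

theorem cBB0_2 : allT (fB0 SB0R ⟨40, 16, 16⟩)
    [zB0_8, zB0_9, zB0_10, zB0_11] = true := by
  decide +kernel

end Pool.H61.Rh
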