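import Pool.Agent.H81.Lv.Zj
import Pool.Agent.H81.Zn.FB0_0
import Pool.Agent.H81.Zn.FB0_1
import Pool.Agent.H81.Zn.FB0_2
import Pool.Agent.H81.Zn.BB0_0
import Pool.Agent.H81.Zn.BB0_1
import Pool.Agent.H81.Zn.BB0_2
import Pool.Agent.H81.Zn.AB0_0

/-! # generated: the checks of the zones, data B, vertex 0 -/

set_option autoImplicit false
set_option maxRecDepth 100000

namespace Pool.H61.Rh

open Complex Pool.H47.Kc Pool.H47.K3

/-- the zones of the data B, vertex 0 -/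
def zB0 : Fin 12 → ZT := ![zB0_0, zB0_1, zB0_2, zB0_3, zB0_4, zB0_5, zB0_6, zB0_7, zB0_8, zB0_9, zB0_10, zB0_11]

theorem kB0_0 : (zB0_0).chk (fun d _ => okZ 0 false d) top = true := by
  decide +kernel

theorem kB0_1 : (zB0_1).chk (fun d _ => okZ 1 false d) top = true := by
  decide +kernel

theorem kB0_2 : (zB0_2).chk (fun d _ => okZ 2 false d) top = true := by
  decide +kernel

theorem kB0_3 : (zB0_3).chk (fun d _ => okZ 3 false d) top = true := by
  decide +kernel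

theorem kB0_4 : (zB0_4).chk (fun d _ => okZ 4 false d) top = true := by
  decide +kernel

theorem kB0_5 : (zB0_5).chk (fun d _ => okZ 5 false d) top = true := by
  decide +kernel

theorem kB0_6 : (zB0_6).chk (fun d _ => okZ 6 false d) top = true := by
  decide +kernel

theorem kB0_7 : (zB0_7).chk (fun d _ => okZ 7 false d) top = true := by
  decide +kernel

theorem kB0_8 : (zB0_8).chk (fun d _ => okZ 8 false d) top = true := by
  decide +kernel

theorem kB0_9 : (zB0_9).chk (fun d _ => okZ 9 false d) top = true := by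
  decide +kernel

theorem kB0_10 : (zB0_10).chk (fun d _ => okZ 10 false d) top = true := by
  decide +kernel

theorem kB0_11 : (zB0_11).chk (fun d _ => okZ 11 false d) top = true := by
  decide +kernel

theorem tKB0 : ∀ l : Fin 12, (zB0 l).chk (fun d _ => okZ l false d) top = true
  | 0 => kB0_0
  | 1 => kB0_1
  | 2 => kB0_2
  | 3 => kB0_3
  | 4 => kB0_4
  | 5 => kB0_5
  | 6 => kB0_6
  | 7 => kB0_7
  | 8 => kB0_8
  | 9 => kB0_9
  | 10 => kB0_10
  | 11 => kB0_11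

theorem tFB0 : ∀ l : Fin 12, (zB0 l).chk (fF0 SB0E ⟨35, 14, 16⟩) top = true
  | 0 => allT_mem cFB0_0 (T := zB0_0) (by simp)
  | 1 => allT_mem cFB0_0 (T := zB0_1) (by simp)
  | 2 => allT_mem cFB0_0 (T := zB0_2) (by simp)
  | 3 => allT_mem cFB0_0 (T := zB0_3) (by simp)
  | 4 => allT_mem cFB0_1 (T := zB0_4) (by simp)
  | 5 => allT_mem cFB0_1 (T := zB0_5) (by simp)
  | 6 => allT_mem cFB0_1 (T := zB0_6) (by simp)
  | 7 => allT_mem cFB0_1 (T := zB0_7) (by simp)
  | 8 => allT_mem cFB0_1 (T := zB0_8) (by simp)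
  | 9 => allT_mem cFB0_1 (T := zB0_9) (by simp)
  | 10 => allT_mem cFB0_1 (T := zB0_10) (by simp)
  | 11 => allT_mem cFB0_2 (T := zB0_11) (by simp)

theorem tBB0 : ∀ l : Fin 12, (zB0 l).chk (fB0 SB0R ⟨40, 16, 16⟩) top = true
  | 0 => allT_mem cBB0_0 (T := zB0_0) (by simp)
  | 1 => allT_mem cBB0_0 (T := zB0_1) (by simp)
  | 2 => allT_mem cBB0_0 (T := zB0_2) (by simp)
  | 3 => allT_mem cBB0_1 (T := zB0_3) (by simp)
  | 4 => allT_mem cBB0_1 (T := zB0_4) (by simp)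
  | 5 => allT_mem cBB0_1 (T := zB0_5) (by simp)
  | 6 => allT_mem cBB0_1 (T := zB0_6) (by simp)
  | 7 => allT_mem cBB0_1 (T := zB0_7) (by simp)
  | 8 => allT_mem cBB0_2 (T := zB0_8) (by simp)
  | 9 => allT_mem cBB0_2 (T := zB0_9) (by simp)
  | 10 => allT_mem cBB0_2 (T := zB0_10) (by simp)
  | 11 => allT_mem cBB0_2 (T := zB0_11) (by simp)

theorem tAB0 : ∀ l : Fin 12, (zB0 l).chk (fA0 SB0R ⟨27, 7, 7⟩) top = true
  | 0 => allT_mem cAB0_0 (T := zB0_0) (by simp)
  | 1 => allT_mem cAB0_0 (T := zB0_1) (by simp)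
  | 2 => allT_mem cAB0_0 (T := zB0_2) (by simp)
  | 3 => allT_mem cAB0_0 (T := zB0_3) (by simp)
  | 4 => allT_mem cAB0_0 (T := zB0_4) (by simp)
  | 5 => allT_mem cAB0_0 (T := zB0_5) (by simp)
  | 6 => allT_mem cAB0_0 (T := zB0_6) (by simp)
  | 7 => allT_mem cAB0_0 (T := zB0_7) (by simp)
  | 8 => allT_mem cAB0_0 (T := zB0_8) (by simp)
  | 9 => allT_mem cAB0_0 (T := zB0_9) (by simp)
  | 10 => allT_mem cAB0_0 (T := zB0_10) (by simp)
  | 11 => allT_mem cAB0_0 (T := zB0_11) (by simp)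

end Pool.H61.Rh
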