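import Pool.Agent.H81.Lv.Tree

/-! # generated: zones of the data B, vertex 1 -/

set_option autoImplicit false
set_option maxRecDepth 100000

namespace Pool.H61.Rh

open Pool.H47.Kc Pool.H47.K3

def zB1_0 : ZT :=
  .z ⟨.ofNat 937895, .negSucc 1624488, .negSucc 66464, .ofNat 442889, .ofNat 87051, .negSucc 9829, .ofNat 267, .ofNat 4832, .ofNat 9830, .ofNat 1376, .ofNat 180, .ofNat 230, .ofNat 39, .ofNat 938, true, 0,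
    .nd 1 64 (.leaf ⟨5, 16, 1, 16, 785⟩ ⟨5, 1, 8, 1, 1, 1, 8, 1⟩) (.leaf ⟨5, 16, 1, 16, 785⟩ ⟨4, 2, 12, 2, 1, 1, 4, 2⟩),
    .nd 1 64 (.leaf ⟨3, 4, 1, 4, 816⟩ ⟨5, 2, 8, 2, 1, 1, 8, 2⟩) (.leaf ⟨3, 4, 1, 4, 816⟩ ⟨3, 2, 6, 2, 1, 1, 2, 2⟩),
    .leaf ⟨3, 4, 1, 4, 457⟩ ⟨8, 1, 128, 1, 43, 1, 3, 1⟩⟩

def zB1_1 : ZT :=
  .z ⟨.ofNat 871430, .negSucc 1181599, .negSucc 52327, .ofNat 1181600, .ofNat 89967, .negSucc 9829, .ofNat 267, .ofNat 4609, .ofNat 9830, .ofNat 1292, .ofNat 177, .ofNat 230, .ofNat 38, .ofNat 739, false, 0,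
    .nd 1 64 (.leaf ⟨3, 4, 1, 4, 624⟩ ⟨5, 3, 8, 4, 1, 1, 8, 4⟩) (.leaf ⟨5, 16, 1, 16, 785⟩ ⟨5, 9, 24, 256, 1, 37, 8, 7⟩),
    .nd 1 64 (.leaf ⟨3, 4, 1, 4, 816⟩ ⟨4, 3, 4, 4, 1, 1, 4, 4⟩) (.leaf ⟨3, 4, 1, 4, 816⟩ ⟨2, 2, 3, 2, 1, 1, 1, 2⟩),
    .leaf ⟨3, 4, 1, 4, 457⟩ ⟨8, 2, 128, 2, 43, 1, 3, 2⟩⟩

def zB1_2 : ZT :=
  .z ⟨.ofNat 819102, .ofNat 0, .ofNat 52328, .ofNat 1181600, .ofNat 89930, .negSucc 2901, .ofNat 201, .ofNat 4716, .ofNat 2902, .ofNat 1292, .ofNat 169, .ofNat 230, .ofNat 38, .ofNat 739, false, 0,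
    .leaf ⟨5, 16, 1, 16, 785⟩ ⟨7, 9, 64, 256, 13, 43, 5, 6⟩,
    .leaf ⟨3, 4, 1, 4, 816⟩ ⟨3, 7, 4, 64, 1, 13, 4, 5⟩,
    .leaf ⟨3, 4, 1, 4, 457⟩ ⟨2, 2, 2, 2, 1, 1, 2, 2⟩⟩

def zB1_3 : ZT :=
  .z ⟨.ofNat 871430, .ofNat 1181600, .ofNat 66465, .ofNat 442889, .ofNat 86813, .negSucc 3276, .ofNat 89, .ofNat 5436, .ofNat 3277, .ofNat 1376, .ofNat 157, .ofNat 242, .ofNat 30, .ofNat 937, true, 0,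
    .leaf ⟨5, 16, 1, 16, 785⟩ ⟨4, 3, 8, 4, 1, 1, 8, 4⟩,
    .nd 1 64 (.leaf ⟨3, 4, 1, 4, 816⟩ ⟨3, 1, 2, 1, 1, 1, 2, 1⟩) (.leaf ⟨3, 4, 1, 4, 816⟩ ⟨4, 2, 12, 2, 1, 1, 4, 2⟩),
    .leaf ⟨3, 4, 1, 4, 457⟩ ⟨3, 2, 4, 2, 1, 1, 4, 2⟩⟩

def zB1_4 : ZT :=
  .z ⟨.ofNat 937895, .ofNat 1624489, .negSucc 350259, .negSucc 279152, .ofNat 84398, .negSucc 716, .ofNat 89, .ofNat 7996, .ofNat 717, .ofNat 1376, .ofNat 152, .ofNat 247, .ofNat 23, .ofNat 937, true, 0,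
    .leaf ⟨5, 16, 1, 16, 785⟩ ⟨4, 2, 8, 2, 1, 1, 8, 2⟩,
    .nd 1 64 (.leaf ⟨3, 4, 1, 4, 860⟩ ⟨3, 1, 2, 1, 1, 1, 2, 1⟩) (.leaf ⟨3, 4, 1, 4, 860⟩ ⟨3, 4, 6, 8, 1, 1, 2, 8⟩),
    .nd 1 64 (.leaf ⟨3, 4, 1, 4, 457⟩ ⟨2, 1, 1, 1, 1, 1, 1, 1⟩) (.leaf ⟨3, 4, 1, 4, 457⟩ ⟨3, 2, 6, 2, 1, 1, 2, 2⟩)⟩

def zB1_5 : ZT :=
  .z ⟨.ofNat 587635, .ofNat 1345336, .negSucc 997185, .negSucc 635953, .ofNat 89792, .negSucc 9829, .ofNat 252, .ofNat 5188, .ofNat 9830, .ofNat 1292, .ofNat 136, .ofNat 449, .ofNat 28, .ofNat 738, false, 0,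
    .leaf ⟨5, 16, 1, 16, 785⟩ ⟨4, 3, 8, 4, 1, 1, 8, 4⟩,
    .leaf ⟨3, 4, 1, 4, 860⟩ ⟨4, 3, 8, 4, 1, 1, 8, 4⟩,
    .leaf ⟨3, 4, 1, 4, 457⟩ ⟨8, 8, 128, 128, 43, 43, 3, 3⟩⟩

def zB1_6 : ZT :=
  .z ⟨.negSucc 409550, .ofNat 709382, .negSucc 1049513, .negSucc 545645, .ofNat 90176, .negSucc 9829, .ofNat 283, .ofNat 4778, .ofNat 9830, .ofNat 1293, .ofNat 136, .ofNat 462, .ofNat 28, .ofNat 740, false, 0,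
    .leaf ⟨5, 16, 1, 16, 785⟩ ⟨3, 7, 4, 64, 1, 13, 4, 5⟩,
    .leaf ⟨3, 4, 1, 4, 860⟩ ⟨9, 4, 256, 8, 43, 1, 6, 8⟩,
    .leaf ⟨3, 4, 1, 4, 457⟩ ⟨8, 8, 128, 128, 43, 43, 3, 3⟩⟩

def zB1_7 : ZT :=
  .z ⟨.negSucc 1459064, .ofNat 163736, .negSucc 416724, .negSucc 163735, .ofNat 87484, .negSucc 3276, .ofNat 89, .ofNat 5055, .ofNat 3277, .ofNat 1376, .ofNat 134, .ofNat 247, .ofNat 27, .ofNat 939, true, 0,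
    .leaf ⟨3, 4, 1, 4, 735⟩ ⟨4, 3, 8, 4, 1, 1, 8, 4⟩,
    .leaf ⟨5, 16, 1, 16, 811⟩ ⟨4, 2, 8, 2, 1, 1, 8, 2⟩,
    .leaf ⟨3, 4, 1, 4, 457⟩ ⟨2, 1, 2, 1, 1, 1, 2, 1⟩⟩

def zB1_8 : ZT :=
  .z ⟨.negSucc 1875789, .ofNat 0, .ofNat 416725, .negSucc 163735, .ofNat 85114, .negSucc 891, .ofNat 89, .ofNat 7440, .ofNat 892, .ofNat 1376, .ofNat 134, .ofNat 242, .ofNat 26, .ofNat 939, true, 0,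
    .leaf ⟨5, 16, 1, 16, 787⟩ ⟨9, 3, 256, 4, 43, 1, 6, 4⟩,
    .leaf ⟨3, 4, 1, 4, 860⟩ ⟨4, 7, 8, 64, 1, 13, 8, 5⟩,
    .leaf ⟨3, 4, 1, 4, 457⟩ ⟨2, 2, 2, 2, 1, 1, 2, 2⟩⟩

def zB1_9 : ZT :=
  .z ⟨.negSucc 1459064, .negSucc 163735, .ofNat 1049514, .negSucc 545645, .ofNat 90196, .negSucc 2908, .ofNat 213, .ofNat 4677, .ofNat 2909, .ofNat 1292, .ofNat 157, .ofNat 230, .ofNat 26, .ofNat 739, false, 0,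
    .leaf ⟨3, 4, 1, 4, 735⟩ ⟨3, 9, 4, 256, 1, 29, 4, 9⟩,
    .leaf ⟨3, 4, 1, 4, 860⟩ ⟨3, 7, 4, 64, 1, 13, 4, 5⟩,
    .leaf ⟨3, 4, 1, 4, 457⟩ ⟨2, 2, 2, 2, 1, 1, 2, 2⟩⟩

def zB1_10 : ZT :=
  .z ⟨.negSucc 409550, .negSucc 709381, .ofNat 997186, .negSucc 635953, .ofNat 90066, .negSucc 9829, .ofNat 267, .ofNat 4609, .ofNat 9830, .ofNat 1292, .ofNat 175, .ofNat 230, .ofNat 30, .ofNat 739, false, 0,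
    .nd 1 64 (.leaf ⟨3, 4, 1, 4, 735⟩ ⟨8, 7, 64, 64, 13, 13, 5, 5⟩) (.leaf ⟨5, 16, 1, 16, 787⟩ ⟨8, 8, 192, 128, 13, 13, 5, 10⟩),
    .nd 1 64 (.leaf ⟨3, 4, 1, 4, 772⟩ ⟨4, 3, 4, 4, 1, 1, 4, 4⟩) (.leaf ⟨3, 4, 1, 4, 772⟩ ⟨2, 2, 3, 2, 1, 1, 1, 2⟩),
    .leaf ⟨3, 4, 1, 4, 457⟩ ⟨2, 2, 2, 2, 1, 1, 2, 2⟩⟩

def zB1_11 : ZT :=
  .z ⟨.ofNat 587635, .negSucc 1345335, .ofNat 350260, .negSucc 279152, .ofNat 87051, .negSucc 9829, .ofNat 267, .ofNat 4832, .ofNat 9830, .ofNat 1376, .ofNat 180, .ofNat 230, .ofNat 39, .ofNat 938, true, 0,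
    .nd 1 64 (.leaf ⟨5, 16, 1, 16, 787⟩ ⟨5, 2, 8, 2, 1, 1, 8, 2⟩) (.leaf ⟨5, 16, 1, 16, 787⟩ ⟨4, 2, 12, 2, 1, 1, 4, 2⟩),
    .nd 1 64 (.leaf ⟨3, 4, 1, 4, 772⟩ ⟨5, 2, 8, 2, 1, 1, 8, 2⟩) (.leaf ⟨3, 4, 1, 4, 772⟩ ⟨3, 2, 6, 2, 1, 1, 2, 2⟩),
    .leaf ⟨3, 4, 1, 4, 457⟩ ⟨8, 1, 128, 1, 43, 1, 3, 1⟩⟩

end Pool.H61.Rh
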