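import Pool.Agent.H81.Lv.Zc
import Pool.Agent.H81.Lv.SymB
import Pool.Agent.H81.Zn.DB1

/-! # generated: check A, data B, vertex 1 -/

set_option autoImplicit false
set_option maxRecDepth 100000

namespace Pool.H61.Rh

open Pool.H47.Kc Pool.H47.K3

theorem cAB1_0 : allT (fA1 SB1R ⟨28, 7, 7⟩)
    [zB1_0, zB1_1, zB1_2, zB1_3, zB1_4, zB1_5, zB1_6, zB1_7, zB1_8, zB1_9, zB1_10, zB1_11] = true := by
  decide +kernel

end Pool.H61.Rh
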