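import Pool.Agent.H81.Lv.Zc
import Pool.Agent.H81.Lv.SymB
import Pool.Agent.H81.Zn.DB1

/-! # generated: check F, data B, vertex 1 -/

set_option autoImplicit false
set_option maxRecDepth 100000

namespace Pool.H61.Rh

open Pool.H47.Kc Pool.H47.K3

theorem cFB1_0 : allT (fF1 SB1E ⟨36, 16, 16⟩)
    [zB1_0, zB1_1, zB1_2, zB1_3, zB1_4, zB1_5, zB1_6] = true := by
  decide +kernel

end Pool.H61.Rh
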