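import Pool.Agent.H81.Lv.Zj
import Pool.Agent.H81.Zn.FB1_0
import Pool.Agent.H81.Zn.FB1_1
import Pool.Agent.H81.Zn.BB1_0
import Pool.Agent.H81.Zn.BB1_1
import Pool.Agent.H81.Zn.BB1_2
import Pool.Agent.H81.Zn.AB1_0

/-! # generated: the checks of the zones, data B, vertex 1 -/

set_option autoImplicit false
set_option maxRecDepth 100000

namespace Pool.H61.Rh

open Complex Pool.H47.Kc Pool.H47.K3

/-- the zones of the data B, vertex 1 -/
def zB1 : Fin 12 → ZT := ![zB1_0, zB1_1, zB1_2, zB1_3, zB1_4, zB1_5, zB1_6, zB1_7, zB1_8, zB1_9, zB1_10, zB1_11]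

theorem kB1_0 : (zB1_0).chk (fun d _ => okZ 0 false d) top = true := by
  decide +kernel

theorem kB1_1 : (zB1_1).chk (fun d _ => okZ 1 false d) top = true := by
  decide +kernel

theorem kB1_2 : (zB1_2).chk (fun d _ => okZ 2 false d) top = true := by
  decide +kernel

theorem kB1_3 : (zB1_3).chk (fun d _ => okZ 3 false d) top = true := by
  decide +kernel

theorem kB1_4 : (zB1_4).chk (fun d _ => okZ 4 false d) top = true := by
  decide +kernel

theorem kB1_5 : (zB1_5).chk (fun d _ => okZ 5 false d) top = true := by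
  decide +kernel

theorem kB1_6 : (zB1_6).chk (fun d _ => okZ 6 false d) top = true := by
  decide +kernel

theorem kB1_7 : (zB1_7).chk (fun d _ => okZ 7 false d) top = true := by
  decide +kernel

theorem kB1_8 : (zB1_8).chk (fun d _ => okZ 8 false d) top = true := by
  decide +kernel

theorem kB1_9 : (zB1_9).chk (fun d _ => okZ 9 false d) top = true := by
  decide +kernel

theorem kB1_10 : (zB1_10).chk (fun d _ => okZ 10 false d) top = true := by
  decide +kernel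

theorem kB1_11 : (zB1_11).chk (fun d _ => okZ 11 false d) top = true := by
  decide +kernel

theorem tKB1 : ∀ l : Fin 12, (zB1 l).chk (fun d _ => okZ l false d) top = true
  | 0 => kB1_0
  | 1 => kB1_1
  | 2 => kB1_2
  | 3 => kB1_3
  | 4 => kB1_4
  | 5 => kB1_5
  | 6 => kB1_6
  | 7 => kB1_7
  | 8 => kB1_8
  | 9 => kB1_9
  | 10 => kB1_10
  | 11 => kB1_11

theorem tFB1 : ∀ l : Fin 12, (zB1 l).chk (fF1 SB1E ⟨36, 16, 16⟩) top = true
  | 0 => allT_mem cFB1_0 (T := zB1_0) (by simp)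
  | 1 => allT_mem cFB1_0 (T := zB1_1) (by simp)
  | 2 => allT_mem cFB1_0 (T := zB1_2) (by simp)
  | 3 => allT_mem cFB1_0 (T := zB1_3) (by simp)
  | 4 => allT_mem cFB1_0 (T := zB1_4) (by simp)
  | 5 => allT_mem cFB1_0 (T := zB1_5) (by simp)
  | 6 => allT_mem cFB1_0 (T := zB1_6) (by simp)
  | 7 => allT_mem cFB1_1 (T := zB1_7) (by simp)
  | 8 => allT_mem cFB1_1 (T := zB1_8) (by simp)
  | 9 => allT_mem cFB1_1 (T := zB1_9) (by simp)
  | 10 => allT_mem cFB1_1 (T := zB1_10) (by simp)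
  | 11 => allT_mem cFB1_1 (T := zB1_11) (by simp)

theorem tBB1 : ∀ l : Fin 12, (zB1 l).chk (fB1 SB1R ⟨40, 16, 16⟩) top = true
  | 0 => allT_mem cBB1_0 (T := zB1_0) (by simp)
  | 1 => allT_mem cBB1_0 (T := zB1_1) (by simp)
  | 2 => allT_mem cBB1_0 (T := zB1_2) (by simp)
  | 3 => allT_mem cBB1_0 (T := zB1_3) (by simp)
  | 4 => allT_mem cBB1_1 (T := zB1_4) (by simp)
  | 5 => allT_mem cBB1_1 (T := zB1_5) (by simp)
  | 6 => allT_mem cBB1_1 (T := zB1_6) (by simp)
  | 7 => allT_mem cBB1_1 (T := zB1_7) (by simp)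
  | 8 => allT_mem cBB1_1 (T := zB1_8) (by simp)
  | 9 => allT_mem cBB1_1 (T := zB1_9) (by simp)
  | 10 => allT_mem cBB1_2 (T := zB1_10) (by simp)
  | 11 => allT_mem cBB1_2 (T := zB1_11) (by simp)

theorem tAB1 : ∀ l : Fin 12, (zB1 l).chk (fA1 SB1R ⟨28, 7, 7⟩) top = true
  | 0 => allT_mem cAB1_0 (T := zB1_0) (by simp)
  | 1 => allT_mem cAB1_0 (T := zB1_1) (by simp)
  | 2 => allT_mem cAB1_0 (T := zB1_2) (by simp)
  | 3 => allT_mem cAB1_0 (T := zB1_3) (by simp)
  | 4 => allT_mem cAB1_0 (T := zB1_4) (by simp)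
  | 5 => allT_mem cAB1_0 (T := zB1_5) (by simp)
  | 6 => allT_mem cAB1_0 (T := zB1_6) (by simp)
  | 7 => allT_mem cAB1_0 (T := zB1_7) (by simp)
  | 8 => allT_mem cAB1_0 (T := zB1_8) (by simp)
  | 9 => allT_mem cAB1_0 (T := zB1_9) (by simp)
  | 10 => allT_mem cAB1_0 (T := zB1_10) (by simp)
  | 11 => allT_mem cAB1_0 (T := zB1_11) (by simp)

end Pool.H61.Rh
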