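import Pool.Agent.H81.Lv.Tree

/-! # generated: zones of the data B, vertex 2 -/

set_option autoImplicit false
set_option maxRecDepth 100000

namespace Pool.H61.Rh

open Pool.H47.Kc Pool.H47.K3

def zB2_0 : ZT :=
  .nd 1 96 (.z ⟨.ofNat 937895, .negSucc 1624488, .negSucc 66464, .ofNat 442889, .ofNat 94069, .negSucc 12434, .ofNat 238, .ofNat 1344, .ofNat 12435, .ofNat 1271, .ofNat 150, .ofNat 217, .ofNat 27, .ofNat 692, false, 8,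
    .nd 0 96 (.leaf ⟨3, 3, 1, 3, 609⟩ ⟨4, 3, 6, 4, 1, 1, 6, 4⟩) (.nd 1 8 (.skip) (.leaf ⟨5, 28, 1, 4, 786⟩ ⟨9, 7, 208, 64, 15, 13, 12, 5⟩)),
    .leaf ⟨3, 4, 1, 4, 861⟩ ⟨4, 2, 6, 2, 1, 1, 6, 2⟩,
    .leaf ⟨3, 4, 1, 4, 459⟩ ⟨3, 2, 3, 2, 1, 1, 3, 2⟩⟩) (.z ⟨.ofNat 937895, .negSucc 1624488, .negSucc 66464, .ofNat 442889, .ofNat 89085, .ofNat 0, .ofNat 50, .ofNat 2936, .ofNat 0, .ofNat 1376, .ofNat 170, .ofNat 160, .ofNat 39, .ofNat 938, true, 0,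
    .leaf ⟨5, 16, 1, 16, 723⟩ ⟨5, 7, 28, 64, 1, 13, 4, 5⟩,
    .leaf ⟨5, 16, 1, 16, 827⟩ ⟨4, 3, 14, 4, 1, 1, 2, 4⟩,
    .leaf ⟨3, 4, 1, 4, 459⟩ ⟨4, 8, 14, 128, 1, 43, 2, 3⟩⟩)

def zB2_1 : ZT :=
  .z ⟨.ofNat 871430, .negSucc 1181599, .negSucc 52327, .ofNat 1181600, .ofNat 93231, .negSucc 7009, .ofNat 213, .ofNat 1438, .ofNat 7010, .ofNat 1292, .ofNat 167, .ofNat 214, .ofNat 38, .ofNat 739, false, 10,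
    .nd 0 96 (.leaf ⟨5, 12, 1, 12, 694⟩ ⟨7, 3, 64, 4, 13, 1, 5, 4⟩) (.nd 1 10 (.skip) (.nd 1 69 (.leaf ⟨5, 28, 1, 4, 786⟩ ⟨7, 4, 40, 8, 3, 1, 10, 8⟩) (.leaf ⟨5, 28, 1, 4, 786⟩ ⟨7, 2, 99, 2, 15, 1, 2, 2⟩))),
    .leaf ⟨3, 4, 1, 4, 861⟩ ⟨4, 9, 8, 256, 1, 43, 8, 6⟩,
    .leaf ⟨3, 4, 1, 4, 459⟩ ⟨8, 2, 128, 2, 43, 1, 3, 2⟩⟩

def zB2_2 : ZT :=
  .z ⟨.ofNat 819102, .ofNat 0, .ofNat 52328, .ofNat 1181600, .ofNat 92837, .negSucc 2173, .ofNat 152, .ofNat 1797, .ofNat 2174, .ofNat 1292, .ofNat 171, .ofNat 211, .ofNat 38, .ofNat 739, false, 14,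
    .nd 0 96 (.leaf ⟨5, 12, 1, 12, 694⟩ ⟨3, 3, 4, 4, 1, 1, 4, 4⟩) (.nd 1 14 (.skip) (.nd 1 71 (.leaf ⟨5, 28, 1, 4, 786⟩ ⟨9, 7, 170, 64, 19, 5, 6, 13⟩) (.leaf ⟨5, 28, 1, 4, 786⟩ ⟨8, 3, 199, 4, 29, 1, 2, 4⟩))),
    .leaf ⟨3, 4, 1, 4, 861⟩ ⟨5, 5, 16, 16, 1, 1, 16, 16⟩,
    .leaf ⟨3, 4, 1, 4, 459⟩ ⟨2, 2, 2, 2, 1, 1, 2, 2⟩⟩

def zB2_3 : ZT :=
  .nd 1 64 (.z ⟨.ofNat 871430, .ofNat 1181600, .ofNat 66465, .ofNat 442889, .ofNat 95120, .negSucc 2990, .ofNat 201, .ofNat 1432, .ofNat 2991, .ofNat 1212, .ofNat 149, .ofNat 211, .ofNat 19, .ofNat 552, false, 12,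
    .nd 0 96 (.leaf ⟨3, 3, 1, 3, 568⟩ ⟨2, 1, 1, 1, 1, 1, 1, 1⟩) (.nd 1 12 (.skip) (.leaf ⟨5, 28, 1, 4, 719⟩ ⟨9, 3, 152, 4, 21, 1, 5, 4⟩)),
    .leaf ⟨3, 4, 1, 4, 861⟩ ⟨4, 2, 4, 2, 1, 1, 4, 2⟩,
    .leaf ⟨3, 4, 1, 4, 459⟩ ⟨2, 1, 1, 1, 1, 1, 1, 1⟩⟩) (.z ⟨.ofNat 871430, .ofNat 1181600, .ofNat 66465, .ofNat 442889, .ofNat 100501, .negSucc 19660, .ofNat 76, .negSucc 8333, .ofNat 19661, .ofNat 1376, .ofNat 167, .ofNat 172, .ofNat 30, .ofNat 937, true, 0,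
    .leaf ⟨5, 16, 1, 16, 645⟩ ⟨3, 2, 6, 2, 1, 1, 2, 2⟩,
    .leaf ⟨3, 4, 1, 4, 861⟩ ⟨4, 2, 12, 2, 1, 1, 4, 2⟩,
    .leaf ⟨3, 4, 1, 4, 459⟩ ⟨2, 1, 3, 1, 1, 1, 1, 1⟩⟩)

def zB2_4 : ZT :=
  .nd 1 64 (.z ⟨.ofNat 937895, .ofNat 1624489, .negSucc 350259, .negSucc 279152, .ofNat 95112, .negSucc 2990, .ofNat 201, .ofNat 1433, .ofNat 2991, .ofNat 1212, .ofNat 149, .ofNat 211, .ofNat 20, .ofNat 552, false, 12,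
    .nd 0 96 (.leaf ⟨3, 3, 1, 3, 568⟩ ⟨2, 1, 1, 1, 1, 1, 1, 1⟩) (.nd 1 12 (.skip) (.leaf ⟨5, 28, 1, 4, 719⟩ ⟨8, 3, 76, 4, 13, 1, 4, 4⟩)),
    .leaf ⟨3, 4, 1, 4, 830⟩ ⟨4, 2, 4, 2, 1, 1, 4, 2⟩,
    .leaf ⟨3, 4, 1, 4, 459⟩ ⟨2, 1, 1, 1, 1, 1, 1, 1⟩⟩) (.z ⟨.ofNat 937895, .ofNat 1624489, .negSucc 350259, .negSucc 279152, .ofNat 100681, .negSucc 19660, .ofNat 76, .negSucc 8333, .ofNat 19661, .ofNat 1376, .ofNat 159, .ofNat 172, .ofNat 23, .ofNat 937, true, 0,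
    .leaf ⟨5, 16, 1, 16, 645⟩ ⟨3, 1, 6, 1, 1, 1, 2, 1⟩,
    .leaf ⟨3, 4, 1, 4, 830⟩ ⟨4, 2, 12, 2, 1, 1, 4, 2⟩,
    .leaf ⟨3, 4, 1, 4, 459⟩ ⟨2, 1, 3, 1, 1, 1, 1, 1⟩⟩)

def zB2_5 : ZT :=
  .z ⟨.ofNat 587635, .ofNat 1345336, .negSucc 997185, .negSucc 635953, .ofNat 93106, .negSucc 2254, .ofNat 152, .ofNat 1798, .ofNat 2255, .ofNat 1292, .ofNat 153, .ofNat 211, .ofNat 28, .ofNat 738, false, 16,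
    .nd 0 96 (.leaf ⟨3, 3, 1, 3, 591⟩ ⟨3, 2, 4, 2, 1, 1, 4, 2⟩) (.nd 1 16 (.skip) (.nd 1 44 (.leaf ⟨5, 28, 1, 4, 724⟩ ⟨6, 4, 15, 8, 1, 1, 7, 8⟩) (.nd 1 72 (.leaf ⟨5, 28, 1, 4, 724⟩ ⟨7, 3, 58, 4, 7, 1, 2, 4⟩) (.leaf ⟨5, 28, 1, 4, 724⟩ ⟨8, 4, 200, 8, 19, 1, 3, 8⟩)))),
    .leaf ⟨5, 16, 1, 16, 899⟩ ⟨6, 6, 32, 32, 1, 1, 32, 32⟩,
    .leaf ⟨3, 4, 1, 4, 459⟩ ⟨2, 2, 2, 2, 1, 1, 2, 2⟩⟩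

def zB2_6 : ZT :=
  .z ⟨.negSucc 409550, .ofNat 709382, .negSucc 1049513, .negSucc 545645, .ofNat 93442, .negSucc 4597, .ofNat 170, .ofNat 1659, .ofNat 4598, .ofNat 1293, .ofNat 128, .ofNat 212, .ofNat 28, .ofNat 740, false, 13,
    .nd 0 96 (.leaf ⟨3, 3, 1, 3, 591⟩ ⟨2, 3, 2, 4, 1, 1, 2, 4⟩) (.nd 1 13 (.skip) (.nd 1 71 (.leaf ⟨7, 112, 1, 16, 773⟩ ⟨9, 4, 168, 8, 17, 1, 7, 8⟩) (.leaf ⟨5, 28, 1, 4, 724⟩ ⟨8, 3, 199, 4, 29, 1, 2, 4⟩))),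
    .leaf ⟨3, 4, 1, 4, 830⟩ ⟨3, 3, 4, 4, 1, 1, 4, 4⟩,
    .leaf ⟨3, 4, 1, 4, 459⟩ ⟨2, 2, 2, 2, 1, 1, 2, 2⟩⟩

def zB2_7 : ZT :=
  .z ⟨.negSucc 1459064, .ofNat 163736, .negSucc 416724, .negSucc 163735, .ofNat 91200, .negSucc 19428, .ofNat 190, .ofNat 1418, .ofNat 19429, .ofNat 1376, .ofNat 128, .ofNat 215, .ofNat 27, .ofNat 939, true, 10,
    .nd 0 96 (.leaf ⟨5, 12, 1, 12, 705⟩ ⟨8, 3, 128, 4, 13, 1, 10, 4⟩) (.nd 1 10 (.skip) (.leaf ⟨7, 112, 1, 16, 773⟩ ⟨7, 3, 69, 4, 5, 1, 12, 4⟩)),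
    .leaf ⟨5, 16, 1, 16, 899⟩ ⟨4, 8, 8, 128, 1, 43, 8, 3⟩,
    .leaf ⟨3, 4, 1, 4, 459⟩ ⟨8, 2, 128, 2, 43, 1, 3, 2⟩⟩

def zB2_8 : ZT :=
  .z ⟨.negSucc 1875789, .ofNat 0, .ofNat 416725, .negSucc 163735, .ofNat 88355, .negSucc 9829, .ofNat 136, .ofNat 4233, .ofNat 9830, .ofNat 1376, .ofNat 131, .ofNat 239, .ofNat 26, .ofNat 939, true, 10,
    .nd 0 96 (.leaf ⟨5, 12, 1, 12, 693⟩ ⟨4, 2, 8, 2, 1, 1, 8, 2⟩) (.nd 1 10 (.skip) (.leaf ⟨5, 28, 1, 4, 739⟩ ⟨6, 2, 35, 2, 3, 1, 10, 2⟩)),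
    .nd 1 64 (.leaf ⟨3, 4, 1, 4, 830⟩ ⟨2, 1, 1, 1, 1, 1, 1, 1⟩) (.leaf ⟨3, 4, 1, 4, 830⟩ ⟨9, 2, 384, 2, 43, 1, 3, 2⟩),
    .nd 1 64 (.leaf ⟨3, 4, 1, 4, 459⟩ ⟨2, 1, 1, 1, 1, 1, 1, 1⟩) (.leaf ⟨3, 4, 1, 4, 459⟩ ⟨3, 1, 6, 1, 1, 1, 2, 1⟩)⟩

def zB2_9 : ZT :=
  .z ⟨.negSucc 1459064, .negSucc 163735, .ofNat 1049514, .negSucc 545645, .ofNat 88279, .negSucc 9829, .ofNat 225, .ofNat 6643, .ofNat 9830, .ofNat 1292, .ofNat 144, .ofNat 444, .ofNat 26, .ofNat 739, false, 13,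
    .nd 0 96 (.leaf ⟨5, 12, 1, 12, 693⟩ ⟨7, 3, 64, 4, 13, 1, 5, 4⟩) (.nd 1 13 (.skip) (.leaf ⟨5, 28, 1, 4, 739⟩ ⟨9, 4, 282, 8, 29, 1, 8, 8⟩)),
    .leaf ⟨3, 4, 1, 4, 776⟩ ⟨4, 3, 8, 4, 1, 1, 8, 4⟩,
    .nd 1 64 (.leaf ⟨3, 4, 1, 4, 459⟩ ⟨2, 1, 1, 1, 1, 1, 1, 1⟩) (.leaf ⟨3, 4, 1, 4, 459⟩ ⟨3, 8, 6, 128, 1, 43, 2, 3⟩)⟩

def zB2_10 : ZT :=
  .nd 1 64 (.z ⟨.negSucc 409550, .negSucc 709381, .ofNat 997186, .negSucc 635953, .ofNat 96341, .negSucc 7306, .ofNat 299, .ofNat 1151, .ofNat 7307, .ofNat 1139, .ofNat 133, .ofNat 254, .ofNat 17, .ofNat 358, false, 9,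
    .nd 0 96 (.leaf ⟨3, 3, 1, 3, 567⟩ ⟨2, 1, 1, 1, 1, 1, 1, 1⟩) (.nd 1 9 (.skip) (.leaf ⟨5, 28, 1, 4, 739⟩ ⟨5, 3, 9, 4, 1, 1, 7, 4⟩)),
    .leaf ⟨3, 4, 1, 4, 776⟩ ⟨4, 2, 4, 2, 1, 1, 4, 2⟩,
    .leaf ⟨3, 4, 1, 4, 459⟩ ⟨3, 1, 2, 1, 1, 1, 2, 1⟩⟩) (.z ⟨.negSucc 409550, .negSucc 709381, .ofNat 997186, .negSucc 635953, .ofNat 98256, .negSucc 16383, .ofNat 190, .negSucc 3395, .ofNat 16384, .ofNat 1292, .ofNat 147, .ofNat 429, .ofNat 30, .ofNat 739, false, 0,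
    .leaf ⟨5, 16, 1, 16, 674⟩ ⟨5, 3, 24, 4, 1, 1, 8, 4⟩,
    .leaf ⟨3, 4, 1, 4, 776⟩ ⟨4, 3, 12, 4, 1, 1, 4, 4⟩,
    .leaf ⟨3, 4, 1, 4, 459⟩ ⟨9, 8, 384, 128, 43, 43, 3, 3⟩⟩)

def zB2_11 : ZT :=
  .nd 1 96 (.z ⟨.ofNat 587635, .negSucc 1345335, .ofNat 350260, .negSucc 279152, .ofNat 94068, .negSucc 12434, .ofNat 238, .ofNat 1344, .ofNat 12435, .ofNat 1271, .ofNat 150, .ofNat 220, .ofNat 27, .ofNat 692, false, 8,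
    .nd 0 96 (.leaf ⟨3, 3, 1, 3, 589⟩ ⟨4, 1, 6, 1, 1, 1, 6, 1⟩) (.nd 1 8 (.skip) (.leaf ⟨5, 28, 1, 4, 663⟩ ⟨5, 2, 13, 2, 1, 1, 11, 2⟩)),
    .leaf ⟨3, 4, 1, 4, 776⟩ ⟨4, 1, 6, 1, 1, 1, 6, 1⟩,
    .leaf ⟨3, 4, 1, 4, 459⟩ ⟨3, 1, 3, 1, 1, 1, 3, 1⟩⟩) (.z ⟨.ofNat 587635, .negSucc 1345335, .ofNat 350260, .negSucc 279152, .ofNat 90998, .negSucc 6553, .ofNat 65, .ofNat 992, .ofNat 6554, .ofNat 1376, .ofNat 170, .ofNat 237, .ofNat 39, .ofNat 938, true, 0,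
    .leaf ⟨5, 16, 1, 16, 664⟩ ⟨5, 2, 28, 2, 1, 1, 4, 2⟩,
    .leaf ⟨3, 4, 1, 4, 776⟩ ⟨4, 2, 14, 2, 1, 1, 2, 2⟩,
    .leaf ⟨3, 4, 1, 4, 459⟩ ⟨4, 2, 14, 2, 1, 1, 2, 2⟩⟩)

end Pool.H61.Rh
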