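import Pool.Agent.H81.Lv.Zj
import Pool.Agent.H81.Zn.FB2_0
import Pool.Agent.H81.Zn.FB2_1
import Pool.Agent.H81.Zn.FB2_2
import Pool.Agent.H81.Zn.FB2_3
import Pool.Agent.H81.Zn.FB2_4
import Pool.Agent.H81.Zn.BB2_0
import Pool.Agent.H81.Zn.BB2_1
import Pool.Agent.H81.Zn.BB2_2
import Pool.Agent.H81.Zn.AB2_0

/-! # generated: the checks of the zones, data B, vertex 2 -/

set_option autoImplicit false
set_option maxRecDepth 100000

namespace Pool.H61.Rh

open Complex Pool.H47.Kc Pool.H47.K3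

/-- the zones of the data B, vertex 2 -/
def zB2 : Fin 12 → ZT := ![zB2_0, zB2_1, zB2_2, zB2_3, zB2_4, zB2_5, zB2_6, zB2_7, zB2_8, zB2_9, zB2_10, zB2_11]

theorem kB2_0 : (zB2_0).chk (fun d _ => okZ 0 true d) top = true := by
  decide +kernel

theorem kB2_1 : (zB2_1).chk (fun d _ => okZ 1 true d) top = true := by
  decide +kernel

theorem kB2_2 : (zB2_2).chk (fun d _ => okZ 2 true d) top = true := by
  decide +kernel

theorem kB2_3 : (zB2_3).chk (fun d _ => okZ 3 true d) top = true := by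
  decide +kernel

theorem kB2_4 : (zB2_4).chk (fun d _ => okZ 4 true d) top = true := by
  decide +kernel

theorem kB2_5 : (zB2_5).chk (fun d _ => okZ 5 true d) top = true := by
  decide +kernel

theorem kB2_6 : (zB2_6).chk (fun d _ => okZ 6 true d) top = true := by
  decide +kernel

theorem kB2_7 : (zB2_7).chk (fun d _ => okZ 7 true d) top = true := by
  decide +kernel

theorem kB2_8 : (zB2_8).chk (fun d _ => okZ 8 true d) top = true := by
  decide +kernel

theorem kB2_9 : (zB2_9).chk (fun d _ => okZ 9 true d) top = true := by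
  decide +kernel

theorem kB2_10 : (zB2_10).chk (fun d _ => okZ 10 true d) top = true := by
  decide +kernel

theorem kB2_11 : (zB2_11).chk (fun d _ => okZ 11 true d) top = true := by
  decide +kernel

theorem tKB2 : ∀ l : Fin 12, (zB2 l).chk (fun d _ => okZ l true d) top = true
  | 0 => kB2_0
  | 1 => kB2_1
  | 2 => kB2_2
  | 3 => kB2_3
  | 4 => kB2_4
  | 5 => kB2_5
  | 6 => kB2_6
  | 7 => kB2_7
  | 8 => kB2_8
  | 9 => kB2_9
  | 10 => kB2_10
  | 11 => kB2_11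

theorem tFB2 : ∀ l : Fin 12, (zB2 l).chk (fF2 SB2E ⟨36, 16, 16⟩) top = true
  | 0 => allT_mem cFB2_0 (T := zB2_0) (by simp)
  | 1 => allT_mem cFB2_0 (T := zB2_1) (by simp)
  | 2 => allT_mem cFB2_0 (T := zB2_2) (by simp)
  | 3 => allT_mem cFB2_1 (T := zB2_3) (by simp)
  | 4 => allT_mem cFB2_1 (T := zB2_4) (by simp)
  | 5 => allT_mem cFB2_2 (T := zB2_5) (by simp)
  | 6 => allT_mem cFB2_2 (T := zB2_6) (by simp)
  | 7 => allT_mem cFB2_2 (T := zB2_7) (by simp)
  | 8 => allT_mem cFB2_3 (T := zB2_8) (by simp)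
  | 9 => allT_mem cFB2_3 (T := zB2_9) (by simp)
  | 10 => allT_mem cFB2_3 (T := zB2_10) (by simp)
  | 11 => allT_mem cFB2_4 (T := zB2_11) (by simp)

theorem tBB2 : ∀ l : Fin 12, (zB2 l).chk (fB2 SB2R ⟨40, 16, 16⟩) top = true
  | 0 => allT_mem cBB2_0 (T := zB2_0) (by simp)
  | 1 => allT_mem cBB2_0 (T := zB2_1) (by simp)
  | 2 => allT_mem cBB2_0 (T := zB2_2) (by simp)
  | 3 => allT_mem cBB2_0 (T := zB2_3) (by simp)
  | 4 => allT_mem cBB2_1 (T := zB2_4) (by simp)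
  | 5 => allT_mem cBB2_1 (T := zB2_5) (by simp)
  | 6 => allT_mem cBB2_1 (T := zB2_6) (by simp)
  | 7 => allT_mem cBB2_1 (T := zB2_7) (by simp)
  | 8 => allT_mem cBB2_1 (T := zB2_8) (by simp)
  | 9 => allT_mem cBB2_2 (T := zB2_9) (by simp)
  | 10 => allT_mem cBB2_2 (T := zB2_10) (by simp)
  | 11 => allT_mem cBB2_2 (T := zB2_11) (by simp)

theorem tAB2 : ∀ l : Fin 12, (zB2 l).chk (fA2 SB2R ⟨28, 7, 7⟩) top = true
  | 0 => allT_mem cAB2_0 (T := zB2_0) (by simp)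
  | 1 => allT_mem cAB2_0 (T := zB2_1) (by simp)
  | 2 => allT_mem cAB2_0 (T := zB2_2) (by simp)
  | 3 => allT_mem cAB2_0 (T := zB2_3) (by simp)
  | 4 => allT_mem cAB2_0 (T := zB2_4) (by simp)
  | 5 => allT_mem cAB2_0 (T := zB2_5) (by simp)
  | 6 => allT_mem cAB2_0 (T := zB2_6) (by simp)
  | 7 => allT_mem cAB2_0 (T := zB2_7) (by simp)
  | 8 => allT_mem cAB2_0 (T := zB2_8) (by simp)
  | 9 => allT_mem cAB2_0 (T := zB2_9) (by simp)
  | 10 => allT_mem cAB2_0 (T := zB2_10) (by simp)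
  | 11 => allT_mem cAB2_0 (T := zB2_11) (by simp)

end Pool.H61.Rh
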