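import Pool.Agent.H81.Lv.Tree

/-! # generated: zones of the data A, vertex 0 -/

set_option autoImplicit false
set_option maxRecDepth 100000

namespace Pool.H61.Rh

open Pool.H47.Kc Pool.H47.K3

def zA0_0 : ZT :=
  .nd 1 96 (.z ⟨.ofNat 937895, .negSucc 1624488, .negSucc 66464, .ofNat 442889, .ofNat 94414, .negSucc 3716, .ofNat 76, .ofNat 1355, .ofNat 3717, .ofNat 1271, .ofNat 132, .ofNat 177, .ofNat 6, .ofNat 692, false, 0,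
    .leaf ⟨5, 16, 1, 16, 757⟩ ⟨5, 2, 12, 2, 3, 1, 4, 2⟩,
    .leaf ⟨3, 4, 1, 4, 787⟩ ⟨4, 2, 6, 2, 1, 1, 6, 2⟩,
    .leaf ⟨3, 4, 1, 4, 390⟩ ⟨3, 1, 3, 1, 1, 1, 3, 1⟩⟩) (.z ⟨.ofNat 937895, .negSucc 1624488, .negSucc 66464, .ofNat 442889, .ofNat 97355, .negSucc 13106, .ofNat 76, .negSucc 4706, .ofNat 13107, .ofNat 1376, .ofNat 141, .ofNat 243, .ofNat 13, .ofNat 938, true, 0,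
    .leaf ⟨5, 16, 1, 16, 757⟩ ⟨6, 3, 56, 4, 1, 1, 8, 4⟩,
    .leaf ⟨3, 4, 1, 4, 787⟩ ⟨4, 2, 14, 2, 1, 1, 2, 2⟩,
    .leaf ⟨3, 4, 1, 4, 390⟩ ⟨4, 2, 14, 2, 1, 1, 2, 2⟩⟩)

def zA0_1 : ZT :=
  .nd 1 96 (.z ⟨.ofNat 871430, .negSucc 1181599, .negSucc 52327, .ofNat 1181600, .ofNat 96156, .negSucc 5244, .ofNat 110, .ofNat 628, .ofNat 5245, .ofNat 1207, .ofNat 140, .ofNat 181, .ofNat 5, .ofNat 540, false, 0,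
    .leaf ⟨3, 4, 1, 4, 679⟩ ⟨5, 7, 12, 64, 3, 13, 4, 5⟩,
    .leaf ⟨3, 4, 1, 4, 787⟩ ⟨5, 3, 12, 4, 3, 1, 4, 4⟩,
    .leaf ⟨3, 4, 1, 4, 390⟩ ⟨4, 2, 6, 2, 3, 1, 2, 2⟩⟩) (.z ⟨.ofNat 871430, .negSucc 1181599, .negSucc 52327, .ofNat 1181600, .ofNat 98247, .negSucc 12762, .ofNat 116, .negSucc 3150, .ofNat 12763, .ofNat 1292, .ofNat 150, .ofNat 333, .ofNat 7, .ofNat 739, false, 0,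
    .nd 1 112 (.leaf ⟨3, 4, 1, 4, 679⟩ ⟨4, 2, 13, 2, 1, 1, 1, 2⟩) (.leaf ⟨5, 16, 1, 16, 757⟩ ⟨7, 8, 120, 128, 1, 5, 8, 26⟩),
    .nd 1 112 (.leaf ⟨3, 4, 1, 4, 787⟩ ⟨4, 1, 13, 1, 1, 1, 1, 1⟩) (.leaf ⟨5, 16, 1, 16, 898⟩ ⟨5, 7, 30, 64, 1, 5, 2, 13⟩),
    .leaf ⟨3, 4, 1, 4, 390⟩ ⟨3, 8, 7, 128, 1, 43, 1, 3⟩⟩)

def zA0_2 : ZT :=
  .nd 1 96 (.z ⟨.ofNat 819102, .ofNat 0, .ofNat 52328, .ofNat 1181600, .ofNat 95240, .negSucc 2184, .ofNat 89, .ofNat 1273, .ofNat 2185, .ofNat 1226, .ofNat 140, .ofNat 134, .ofNat 6, .ofNat 587, false, 0,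
    .leaf ⟨3, 4, 1, 4, 679⟩ ⟨3, 3, 3, 4, 1, 1, 3, 4⟩,
    .leaf ⟨3, 4, 1, 4, 787⟩ ⟨4, 2, 6, 2, 3, 1, 2, 2⟩,
    .leaf ⟨3, 4, 1, 4, 390⟩ ⟨4, 1, 6, 1, 3, 1, 2, 1⟩⟩) (.z ⟨.ofNat 819102, .ofNat 0, .ofNat 52328, .ofNat 1181600, .ofNat 106838, .negSucc 19660, .ofNat 110, .negSucc 11712, .ofNat 19661, .ofNat 1292, .ofNat 150, .ofNat 238, .ofNat 7, .ofNat 739, false, 0,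
    .leaf ⟨5, 16, 1, 16, 757⟩ ⟨5, 4, 28, 8, 1, 1, 4, 8⟩,
    .leaf ⟨3, 4, 1, 4, 787⟩ ⟨3, 3, 7, 4, 1, 1, 1, 4⟩,
    .leaf ⟨3, 4, 1, 4, 390⟩ ⟨3, 8, 7, 128, 1, 43, 1, 3⟩⟩)

def zA0_3 : ZT :=
  .nd 1 96 (.z ⟨.ofNat 871430, .ofNat 1181600, .ofNat 66465, .ofNat 442889, .ofNat 93794, .negSucc 1148, .ofNat 59, .ofNat 1464, .ofNat 1149, .ofNat 1293, .ofNat 131, .ofNat 112, .ofNat 12, .ofNat 741, false, 0,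
    .leaf ⟨3, 4, 1, 4, 679⟩ ⟨5, 2, 12, 2, 3, 1, 4, 2⟩,
    .leaf ⟨3, 4, 1, 4, 846⟩ ⟨3, 1, 3, 1, 1, 1, 3, 1⟩,
    .leaf ⟨3, 4, 1, 4, 390⟩ ⟨4, 1, 6, 1, 3, 1, 2, 1⟩⟩) (.z ⟨.ofNat 871430, .ofNat 1181600, .ofNat 66465, .ofNat 442889, .ofNat 90489, .ofNat 0, .ofNat 42, .ofNat 2260, .ofNat 0, .ofNat 1376, .ofNat 130, .ofNat 97, .ofNat 19, .ofNat 937, true, 0,
    .leaf ⟨5, 16, 1, 16, 757⟩ ⟨5, 3, 28, 4, 1, 1, 4, 4⟩,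
    .leaf ⟨3, 4, 1, 4, 846⟩ ⟨4, 2, 14, 2, 1, 1, 2, 2⟩,
    .leaf ⟨3, 4, 1, 4, 390⟩ ⟨3, 1, 7, 1, 1, 1, 1, 1⟩⟩)

def zA0_4 : ZT :=
  .nd 1 96 (.z ⟨.ofNat 937895, .ofNat 1624489, .negSucc 350259, .negSucc 279152, .ofNat 93703, .negSucc 1013, .ofNat 59, .ofNat 1564, .ofNat 1014, .ofNat 1293, .ofNat 130, .ofNat 111, .ofNat 12, .ofNat 741, false, 0,
    .leaf ⟨3, 4, 1, 4, 603⟩ ⟨3, 3, 3, 4, 1, 1, 3, 4⟩,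
    .leaf ⟨3, 4, 1, 4, 846⟩ ⟨3, 1, 3, 1, 1, 1, 3, 1⟩,
    .leaf ⟨3, 4, 1, 4, 390⟩ ⟨4, 1, 6, 1, 3, 1, 2, 1⟩⟩) (.z ⟨.ofNat 937895, .ofNat 1624489, .negSucc 350259, .negSucc 279152, .ofNat 91811, .negSucc 1294, .ofNat 42, .ofNat 965, .ofNat 1295, .ofNat 1376, .ofNat 128, .ofNat 83, .ofNat 19, .ofNat 937, true, 0,
    .leaf ⟨5, 16, 1, 16, 756⟩ ⟨5, 7, 28, 64, 1, 13, 4, 5⟩,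
    .leaf ⟨3, 4, 1, 4, 846⟩ ⟨4, 3, 14, 4, 1, 1, 2, 4⟩,
    .leaf ⟨3, 4, 1, 4, 390⟩ ⟨3, 1, 7, 1, 1, 1, 1, 1⟩⟩)

def zA0_5 : ZT :=
  .z ⟨.ofNat 587635, .ofNat 1345336, .negSucc 997185, .negSucc 635953, .ofNat 94761, .negSucc 631, .ofNat 53, .ofNat 536, .ofNat 632, .ofNat 1292, .ofNat 129, .ofNat 111, .ofNat 13, .ofNat 738, false, 0,
    .nd 2 64 (.leaf ⟨3, 4, 1, 4, 603⟩ ⟨3, 4, 4, 4, 1, 1, 4, 4⟩) (.leaf ⟨5, 16, 1, 16, 756⟩ ⟨3, 8, 4, 192, 1, 13, 4, 5⟩),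
    .leaf ⟨3, 4, 1, 4, 846⟩ ⟨9, 3, 256, 4, 37, 1, 7, 4⟩,
    .leaf ⟨3, 4, 1, 4, 390⟩ ⟨2, 2, 2, 2, 1, 1, 2, 2⟩⟩

def zA0_6 : ZT :=
  .z ⟨.negSucc 409550, .ofNat 709382, .negSucc 1049513, .negSucc 545645, .ofNat 93016, .ofNat 1638, .ofNat 46, .ofNat 2267, .negSucc 1637, .ofNat 1293, .ofNat 127, .ofNat 111, .ofNat 14, .ofNat 740, false, 0,
    .nd 2 64 (.leaf ⟨5, 16, 1, 16, 756⟩ ⟨3, 8, 4, 64, 1, 13, 4, 5⟩) (.leaf ⟨3, 4, 1, 4, 603⟩ ⟨2, 4, 2, 12, 1, 1, 2, 4⟩),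
    .leaf ⟨3, 4, 1, 4, 846⟩ ⟨2, 3, 2, 4, 1, 1, 2, 4⟩,
    .leaf ⟨3, 4, 1, 4, 390⟩ ⟨2, 1, 2, 1, 1, 1, 2, 1⟩⟩

def zA0_7 : ZT :=
  .z ⟨.negSucc 1459064, .ofNat 163736, .negSucc 416724, .negSucc 163735, .ofNat 92367, .negSucc 6553, .ofNat 116, .ofNat 409, .ofNat 6554, .ofNat 1376, .ofNat 127, .ofNat 111, .ofNat 19, .ofNat 939, true, 0,
    .leaf ⟨3, 4, 1, 4, 603⟩ ⟨2, 1, 2, 1, 1, 1, 2, 1⟩,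
    .leaf ⟨3, 4, 1, 4, 846⟩ ⟨4, 2, 8, 2, 1, 1, 8, 2⟩,
    .leaf ⟨3, 4, 1, 4, 390⟩ ⟨2, 1, 2, 1, 1, 1, 2, 1⟩⟩

def zA0_8 : ZT :=
  .z ⟨.negSucc 1875789, .ofNat 0, .ofNat 416725, .negSucc 163735, .ofNat 92367, .negSucc 9829, .ofNat 116, .ofNat 409, .ofNat 9830, .ofNat 1376, .ofNat 127, .ofNat 111, .ofNat 19, .ofNat 939, true, 0,
    .leaf ⟨3, 4, 1, 4, 603⟩ ⟨2, 2, 2, 2, 1, 1, 2, 2⟩,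
    .leaf ⟨3, 4, 1, 4, 844⟩ ⟨4, 2, 8, 2, 1, 1, 8, 2⟩,
    .leaf ⟨3, 4, 1, 4, 390⟩ ⟨2, 1, 2, 1, 1, 1, 2, 1⟩⟩

def zA0_9 : ZT :=
  .z ⟨.negSucc 1459064, .negSucc 163735, .ofNat 1049514, .negSucc 545645, .ofNat 94748, .negSucc 494, .ofNat 72, .ofNat 496, .ofNat 495, .ofNat 1292, .ofNat 134, .ofNat 111, .ofNat 13, .ofNat 739, false, 0,
    .leaf ⟨5, 16, 1, 16, 756⟩ ⟨7, 8, 64, 128, 13, 13, 5, 10⟩,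
    .leaf ⟨3, 4, 1, 4, 844⟩ ⟨3, 3, 4, 4, 1, 1, 4, 4⟩,
    .leaf ⟨3, 4, 1, 4, 390⟩ ⟨2, 2, 2, 2, 1, 1, 2, 2⟩⟩

def zA0_10 : ZT :=
  .z ⟨.negSucc 409550, .negSucc 709381, .ofNat 997186, .negSucc 635953, .ofNat 94526, .negSucc 1942, .ofNat 59, .ofNat 764, .ofNat 1943, .ofNat 1292, .ofNat 135, .ofNat 131, .ofNat 7, .ofNat 739, false, 0,
    .nd 2 64 (.leaf ⟨5, 16, 1, 16, 689⟩ ⟨7, 4, 64, 4, 13, 1, 5, 4⟩) (.leaf ⟨5, 16, 1, 16, 689⟩ ⟨4, 3, 8, 6, 1, 1, 8, 2⟩),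
    .nd 1 64 (.leaf ⟨3, 4, 1, 4, 844⟩ ⟨2, 3, 1, 4, 1, 1, 1, 4⟩) (.leaf ⟨3, 4, 1, 4, 844⟩ ⟨3, 3, 6, 4, 1, 1, 2, 4⟩),
    .nd 1 64 (.leaf ⟨3, 4, 1, 4, 390⟩ ⟨2, 1, 1, 1, 1, 1, 1, 1⟩) (.leaf ⟨3, 4, 1, 4, 390⟩ ⟨3, 2, 6, 2, 1, 1, 2, 2⟩)⟩

def zA0_11 : ZT :=
  .nd 1 96 (.z ⟨.ofNat 587635, .negSucc 1345335, .ofNat 350260, .negSucc 279152, .ofNat 95009, .negSucc 4368, .ofNat 68, .ofNat 766, .ofNat 4369, .ofNat 1271, .ofNat 132, .ofNat 153, .ofNat 6, .ofNat 692, false, 0,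
    .leaf ⟨3, 4, 1, 4, 600⟩ ⟨4, 3, 6, 4, 1, 1, 6, 4⟩,
    .leaf ⟨5, 16, 1, 16, 796⟩ ⟨4, 1, 6, 1, 1, 1, 6, 1⟩,
    .leaf ⟨3, 4, 1, 4, 390⟩ ⟨3, 1, 3, 1, 1, 1, 3, 1⟩⟩) (.z ⟨.ofNat 587635, .negSucc 1345335, .ofNat 350260, .negSucc 279152, .ofNat 87584, .ofNat 2588, .ofNat 40, .ofNat 5100, .negSucc 2587, .ofNat 1376, .ofNat 141, .ofNat 152, .ofNat 13, .ofNat 938, true, 0,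
    .leaf ⟨5, 16, 1, 16, 689⟩ ⟨6, 4, 56, 8, 1, 1, 8, 8⟩,
    .leaf ⟨3, 4, 1, 4, 844⟩ ⟨9, 3, 448, 4, 13, 1, 5, 4⟩,
    .leaf ⟨3, 4, 1, 4, 390⟩ ⟨4, 2, 14, 2, 1, 1, 2, 2⟩⟩)

end Pool.H61.Rh
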