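import Pool.Agent.H81.Lv.Zj
import Pool.Agent.H81.Zn.FA0_0
import Pool.Agent.H81.Zn.FA0_1
import Pool.Agent.H81.Zn.FA0_2
import Pool.Agent.H81.Zn.BA0_0
import Pool.Agent.H81.Zn.BA0_1
import Pool.Agent.H81.Zn.BA0_2
import Pool.Agent.H81.Zn.AA0_0

/-! # generated: the checks of the zones, data A, vertex 0 -/

set_option autoImplicit false
set_option maxRecDepth 100000

namespace Pool.H61.Rh

open Complex Pool.H47.Kc Pool.H47.K3

/-- the zones of the data A, vertex 0 -/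
def zA0 : Fin 12 → ZT := ![zA0_0, zA0_1, zA0_2, zA0_3, zA0_4, zA0_5, zA0_6, zA0_7, zA0_8, zA0_9, zA0_10, zA0_11]

theorem kA0_0 : (zA0_0).chk (fun d _ => okZ 0 false d) top = true := by
  decide +kernel

theorem kA0_1 : (zA0_1).chk (fun d _ => okZ 1 false d) top = true := by
  decide +kernel

theorem kA0_2 : (zA0_2).chk (fun d _ => okZ 2 false d) top = true := by
  decide +kernel

theorem kA0_3 : (zA0_3).chk (fun d _ => okZ 3 false d) top = true := by
  decide +kernel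

theorem kA0_4 : (zA0_4).chk (fun d _ => okZ 4 false d) top = true := by
  decide +kernel

theorem kA0_5 : (zA0_5).chk (fun d _ => okZ 5 false d) top = true := by
  decide +kernel

theorem kA0_6 : (zA0_6).chk (fun d _ => okZ 6 false d) top = true := by
  decide +kernel

theorem kA0_7 : (zA0_7).chk (fun d _ => okZ 7 false d) top = true := by
  decide +kernel

theorem kA0_8 : (zA0_8).chk (fun d _ => okZ 8 false d) top = true := by
  decide +kernel

theorem kA0_9 : (zA0_9).chk (fun d _ => okZ 9 false d) top = true := by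
  decide +kernel

theorem kA0_10 : (zA0_10).chk (fun d _ => okZ 10 false d) top = true := by
  decide +kernel

theorem kA0_11 : (zA0_11).chk (fun d _ => okZ 11 false d) top = true := by
  decide +kernel

theorem tKA0 : ∀ l : Fin 12, (zA0 l).chk (fun d _ => okZ l false d) top = true
  | 0 => kA0_0
  | 1 => kA0_1
  | 2 => kA0_2
  | 3 => kA0_3
  | 4 => kA0_4
  | 5 => kA0_5
  | 6 => kA0_6
  | 7 => kA0_7
  | 8 => kA0_8
  | 9 => kA0_9
  | 10 => kA0_10
  | 11 => kA0_11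

theorem tFA0 : ∀ l : Fin 12, (zA0 l).chk (fF0 SA0E ⟨35, 14, 16⟩) top = true
  | 0 => allT_mem cFA0_0 (T := zA0_0) (by simp)
  | 1 => allT_mem cFA0_0 (T := zA0_1) (by simp)
  | 2 => allT_mem cFA0_0 (T := zA0_2) (by simp)
  | 3 => allT_mem cFA0_0 (T := zA0_3) (by simp)
  | 4 => allT_mem cFA0_1 (T := zA0_4) (by simp)
  | 5 => allT_mem cFA0_1 (T := zA0_5) (by simp)
  | 6 => allT_mem cFA0_1 (T := zA0_6) (by simp)
  | 7 => allT_mem cFA0_1 (T := zA0_7) (by simp)
  | 8 => allT_mem cFA0_1 (T := zA0_8) (by simp)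
  | 9 => allT_mem cFA0_1 (T := zA0_9) (by simp)
  | 10 => allT_mem cFA0_2 (T := zA0_10) (by simp)
  | 11 => allT_mem cFA0_2 (T := zA0_11) (by simp)

theorem tBA0 : ∀ l : Fin 12, (zA0 l).chk (fB0 SA0R ⟨40, 16, 16⟩) top = true
  | 0 => allT_mem cBA0_0 (T := zA0_0) (by simp)
  | 1 => allT_mem cBA0_0 (T := zA0_1) (by simp)
  | 2 => allT_mem cBA0_0 (T := zA0_2) (by simp)
  | 3 => allT_mem cBA0_1 (T := zA0_3) (by simp)
  | 4 => allT_mem cBA0_1 (T := zA0_4) (by simp)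
  | 5 => allT_mem cBA0_1 (T := zA0_5) (by simp)
  | 6 => allT_mem cBA0_1 (T := zA0_6) (by simp)
  | 7 => allT_mem cBA0_1 (T := zA0_7) (by simp)
  | 8 => allT_mem cBA0_2 (T := zA0_8) (by simp)
  | 9 => allT_mem cBA0_2 (T := zA0_9) (by simp)
  | 10 => allT_mem cBA0_2 (T := zA0_10) (by simp)
  | 11 => allT_mem cBA0_2 (T := zA0_11) (by simp)

theorem tAA0 : ∀ l : Fin 12, (zA0 l).chk (fA0 SA0R ⟨27, 7, 7⟩) top = true
  | 0 => allT_mem cAA0_0 (T := zA0_0) (by simp)
  | 1 => allT_mem cAA0_0 (T := zA0_1) (by simp)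
  | 2 => allT_mem cAA0_0 (T := zA0_2) (by simp)
  | 3 => allT_mem cAA0_0 (T := zA0_3) (by simp)
  | 4 => allT_mem cAA0_0 (T := zA0_4) (by simp)
  | 5 => allT_mem cAA0_0 (T := zA0_5) (by simp)
  | 6 => allT_mem cAA0_0 (T := zA0_6) (by simp)
  | 7 => allT_mem cAA0_0 (T := zA0_7) (by simp)
  | 8 => allT_mem cAA0_0 (T := zA0_8) (by simp)
  | 9 => allT_mem cAA0_0 (T := zA0_9) (by simp)
  | 10 => allT_mem cAA0_0 (T := zA0_10) (by simp)
  | 11 => allT_mem cAA0_0 (T := zA0_11) (by simp)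

end Pool.H61.Rh
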